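import Pool.Agent.Helper346.Cd.Defs

set_option autoImplicit false

open MvPolynomial

namespace Pool.Agent.Helper346.Cd



theorem diff_diff {G M : Type*} [AddCommGroup M] (q : ℕ) (f : (Fin (q + 1) → G) → M) :
    diff (q + 1) (diff q f) = 0 := by
  funext x
  have h1 : diff (q + 1) (diff q f) x = ∑ p : Fin (q + 3) × Fin (q + 2),
      (-1 : ℤ) ^ ((p.1 : ℕ) + (p.2 : ℕ)) • f (fun m => x (p.1.succAbove (p.2.succAbove m))) := by
    rw [Fintype.sum_prod_type]
    unfold diff
    refine Finset.sum_congr rfl (fun i _ => ?_)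
    rw [Finset.smul_sum]
    refine Finset.sum_congr rfl (fun j _ => ?_)
    rw [smul_smul, pow_add]
  rw [h1]
  refine Finset.sum_involution (fun p _ => (p.1.succAbove p.2, p.2.predAbove p.1)) ?_ ?_ ?_ ?_
  · rintro ⟨i, j⟩ _
    simp only
    have h2 : (fun m => x ((i.succAbove j).succAbove ((j.predAbove i).succAbove m))) =
        fun m => x (i.succAbove (j.succAbove m)) := by
      funext m
      rw [Fin.succAbove_succAbove_succAbove_predAbove]
    rw [h2, Fin.neg_one_pow_succAbove_add_predAbove, neg_smul, add_neg_cancel]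
  · rintro ⟨i, j⟩ _ _ h
    exact Fin.succAbove_ne i j (congrArg Prod.fst h)
  · intro p _
    exact Finset.mem_univ _
  · rintro ⟨i, j⟩ _
    simp only [Fin.succAbove_succAbove_predAbove, Fin.predAbove_predAbove_succAbove]

end Pool.Agent.Helper346.Cd
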