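import Pool.Agent.Helper346.Cd.Defs

set_option autoImplicit false

open MvPolynomial

namespace Pool.Agent.Helper346.Cd



theorem exists_uniform {G : Type*} [Group G] [TopologicalSpace G] [IsTopologicalGroup G]
    [CompactSpace G] [TotallyDisconnectedSpace G] {M : Type*} (n : ℕ) (f : (Fin n → G) → M)
    (hf : IsLocallyConstant f) :
    ∃ U : Subgroup G, U.Normal ∧ IsOpen (U : Set G) ∧
      ∀ x u : Fin n → G, (∀ i, u i ∈ U) → f (fun i => x i * u i) = f x := by
  set S : Set ((Fin n → G) × (Fin n → G)) := {p | f (fun i => p.1 i * p.2 i) = f p.1} with hS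
  have hSo : IsOpen S := by
    have h1 : IsLocallyConstant (fun p : (Fin n → G) × (Fin n → G) => f (fun i => p.1 i * p.2 i)) :=
      hf.comp_continuous (f := fun p : (Fin n → G) × (Fin n → G) => (fun i => p.1 i * p.2 i))
        (by fun_prop)
    have h2 : IsLocallyConstant (fun p : (Fin n → G) × (Fin n → G) => f p.1) :=
      hf.comp_continuous continuous_fst
    have h3 := h1.prodMk h2
    exact h3 {q : M × M | q.1 = q.2}
  obtain ⟨A, B, hA, hB, hAu, hB1, hAB⟩ := generalized_tube_lemma (isCompact_univ (X := Fin n → G))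
    (isCompact_singleton (x := (1 : Fin n → G))) hSo (by
      rintro ⟨x, u⟩ ⟨-, hu⟩
      have hu' : u = 1 := hu
      subst hu'
      show f (fun i => x i * (1 : Fin n → G) i) = f x
      congr 1
      funext i
      simp)
  obtain ⟨V, hV, hVB⟩ := isOpen_pi_iff'.1 hB 1 (hB1 rfl)
  have hW : IsOpen (⋂ i, V i) := isOpen_iInter_of_finite (fun i => (hV i).1)
  have h1W : (1 : G) ∈ ⋂ i, V i := Set.mem_iInter.2 (fun i => (hV i).2)
  obtain ⟨H, hH⟩ := ProfiniteGrp.exist_openNormalSubgroup_sub_open_nhds_of_one hW h1W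
  refine ⟨H.toSubgroup, H.isNormal', H.isOpen', ?_⟩
  intro x u hu
  have h4 : (x, u) ∈ S := by
    apply hAB
    refine ⟨hAu (Set.mem_univ x), hVB ?_⟩
    intro i _
    exact Set.mem_iInter.1 (hH (hu i)) i
  exact h4

end Pool.Agent.Helper346.Cd
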