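import Pool.Agent.Helper346.Cd.Defs
import Pool.Agent.Helper346.Cd.CB

set_option autoImplicit false

open MvPolynomial

namespace Pool.Agent.Helper346.Cd



theorem sum_lc833 {X A ι : Type*} [TopologicalSpace X] [AddCommGroup A] (s : Finset ι)
    (F : ι → X → A) (h : ∀ i, IsLocallyConstant (F i)) : IsLocallyConstant (fun x => ∑ i ∈ s, F i x) := by
  classical
  induction s using Finset.induction_on with
  | empty =>
    simp only [Finset.sum_empty]
    exact IsLocallyConstant.const 0
  | insert a s ha ih =>
    simp only [Finset.sum_insert ha]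
    exact (h a).add ih

theorem vanish_of_average {G A : Type*} [Group G] [TopologicalSpace G] [IsTopologicalGroup G]
    [CompactSpace G] [TotallyDisconnectedSpace G] [AddCommGroup A] [DistribMulAction G A]
    (h : ∀ U : Subgroup G, U.Normal → IsOpen (U : Set G) →
      ∃ l : G ⧸ U → A →+ A, (∀ a, ∑ᶠ t, l t a = a) ∧
        ∀ (g : G) (t : G ⧸ U) (a : A), g • l t a = l (g • t) (g • a)) (q : ℕ) :
    HSuccVanishes G A q := by
  intro f hf hdf
  obtain ⟨U, hUn, hUo, hU⟩ := exists_uniform (q + 2) f hf.1
  obtain ⟨l, hl1, hl2⟩ := h U hUn hUo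
  haveI : Finite (G ⧸ U) := Subgroup.quotient_finite_of_isOpen U hUo
  letI := Fintype.ofFinite (G ⧸ U)
  have hl1' : ∀ a, ∑ t, l t a = a := fun a => by
    rw [← finsum_eq_sum_of_fintype]; exact hl1 a
  refine ⟨fun x => ∑ t : G ⧸ U, l t (f (Fin.cons (Quotient.out t) x : Fin (q + 2) → G)), ⟨?_, ?_⟩, ?_⟩
  · apply sum_lc833
    intro t
    have hc : Continuous (fun x : Fin (q + 1) → G => (Fin.cons (Quotient.out t) x : Fin (q + 2) → G)) := by
      apply continuous_pi
      intro i
      refine Fin.cases ?_ (fun i' => ?_) i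
      · simp only [Fin.cons_zero]
        exact continuous_const
      · simp only [Fin.cons_succ]
        exact continuous_apply i'
    exact (hf.1.comp_continuous hc).comp (l t)
  · intro γ x
    beta_reduce
    rw [Finset.smul_sum]
    have hterm : ∀ t : G ⧸ U, l t (f (Fin.cons (Quotient.out t) (fun i => γ * x i) : Fin (q + 2) → G)) =
        γ • l (γ⁻¹ • t) (f (Fin.cons (Quotient.out (γ⁻¹ • t)) x : Fin (q + 2) → G)) := by
      intro t
      have e1 : (Fin.cons (Quotient.out t) (fun i => γ * x i) : Fin (q + 2) → G) =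
          fun i => γ * (Fin.cons (γ⁻¹ * Quotient.out t) x : Fin (q + 2) → G) i := by
        funext i
        refine Fin.cases ?_ (fun i' => ?_) i
        · simp only [Fin.cons_zero]
          rw [mul_inv_cancel_left]
        · simp only [Fin.cons_succ]
      have e2 : γ⁻¹ • t = ((γ⁻¹ * Quotient.out t : G) : G ⧸ U) := by
        conv_lhs => rw [← QuotientGroup.out_eq' t]
        rfl
      obtain ⟨u, hu⟩ := QuotientGroup.mk_out_eq_mul U (γ⁻¹ * Quotient.out t)
      have e3 : f (Fin.cons (Quotient.out (γ⁻¹ • t)) x : Fin (q + 2) → G) =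
          f (Fin.cons (γ⁻¹ * Quotient.out t) x : Fin (q + 2) → G) := by
        rw [e2, hu]
        have := hU (Fin.cons (γ⁻¹ * Quotient.out t) x : Fin (q + 2) → G)
          (Fin.cons (u : G) (fun _ => 1) : Fin (q + 2) → G) (by
            intro i
            refine Fin.cases ?_ (fun i' => ?_) i
            · simp only [Fin.cons_zero]
              exact u.2
            · simp only [Fin.cons_succ]
              exact U.one_mem)
        rw [← this]
        congr 1
        funext i
        refine Fin.cases ?_ (fun i' => ?_) i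
        · simp only [Fin.cons_zero]
        · simp only [Fin.cons_succ, mul_one]
      rw [hl2, smul_inv_smul, e3, e1, hf.2]
    rw [Finset.sum_congr rfl (fun t _ => hterm t)]
    exact Equiv.sum_comp (MulAction.toPerm γ⁻¹ : Equiv.Perm (G ⧸ U))
      (fun t => γ • l t (f (Fin.cons (Quotient.out t) x : Fin (q + 2) → G)))
  · funext x
    have hkey : ∀ t : G ⧸ U, ∑ j : Fin (q + 2), (-1 : ℤ) ^ (j : ℕ) •
        f (Fin.cons (Quotient.out t) (fun i => x (j.succAbove i)) : Fin (q + 2) → G) = f x := by
      intro t
      have h0 := congrFun hdf (Fin.cons (Quotient.out t) x : Fin (q + 3) → G)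
      unfold diff at h0
      rw [Fin.sum_univ_succ] at h0
      have e0 : (fun i => (Fin.cons (Quotient.out t) x : Fin (q + 3) → G) ((0 : Fin (q + 3)).succAbove i)) = x := by
        funext i
        rw [Fin.zero_succAbove, Fin.cons_succ]
      have ej : ∀ j : Fin (q + 2), (fun i => (Fin.cons (Quotient.out t) x : Fin (q + 3) → G) (j.succ.succAbove i)) =
          (Fin.cons (Quotient.out t) (fun i => x (j.succAbove i)) : Fin (q + 2) → G) := by
        intro j
        funext i
        refine Fin.cases ?_ (fun i' => ?_) i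
        · rw [Fin.succ_succAbove_zero, Fin.cons_zero, Fin.cons_zero]
        · rw [Fin.succ_succAbove_succ, Fin.cons_succ, Fin.cons_succ]
      simp only [Fin.val_zero, pow_zero, one_smul, Fin.val_succ, pow_succ, mul_neg, mul_one, neg_smul,
        Finset.sum_neg_distrib] at h0
      rw [e0] at h0
      have h1 : f x - ∑ j : Fin (q + 2), (-1 : ℤ) ^ (j : ℕ) •
          f (Fin.cons (Quotient.out t) (fun i => x (j.succAbove i)) : Fin (q + 2) → G) = 0 := by
        rw [sub_eq_add_neg]
        rw [Finset.sum_congr rfl (fun j _ => by rw [ej j])] at h0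
        exact h0
      rw [sub_eq_zero] at h1
      exact h1.symm
    unfold diff
    have e1 : ∀ j : Fin (q + 2), (-1 : ℤ) ^ (j : ℕ) •
        ∑ t : G ⧸ U, l t (f (Fin.cons (Quotient.out t) (fun i => x (j.succAbove i)) : Fin (q + 2) → G)) =
        ∑ t : G ⧸ U, l t ((-1 : ℤ) ^ (j : ℕ) •
          f (Fin.cons (Quotient.out t) (fun i => x (j.succAbove i)) : Fin (q + 2) → G)) := by
      intro j
      rw [Finset.smul_sum]
      apply Finset.sum_congr rfl
      intro t _
      rw [map_zsmul]
    rw [Finset.sum_congr rfl (fun j _ => e1 j), Finset.sum_comm]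
    rw [← hl1' (f x)]
    apply Finset.sum_congr rfl
    intro t _
    rw [← map_sum, hkey t]

end Pool.Agent.Helper346.Cd
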