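import Pool.Agent.Helper346.Cd.Defs
import Pool.Agent.Helper346.Cd.CC

set_option autoImplicit false

open MvPolynomial

namespace Pool.Agent.Helper346.Cd



theorem vanish_separableClosure {k K : Type*} [Field k] [Field K] [Algebra k K] [IsGalois k K]
    (q : ℕ) : HSuccVanishes Gal(K/k) K q := by
  classical
  apply vanish_of_average
  intro U hUn hUo
  have hUcl : IsClosed (U : Set Gal(K/k)) := U.isClosed_of_isOpen hUo
  obtain ⟨H, hHU⟩ : ∃ H : ClosedSubgroup Gal(K/k), H.toSubgroup = U := ⟨⟨U, hUcl⟩, rfl⟩
  subst hHU
  have hfix : (IntermediateField.fixedField H.toSubgroup).fixingSubgroup = H.toSubgroup :=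
    InfiniteGalois.fixingSubgroup_fixedField H
  have hFG := (InfiniteGalois.isOpen_and_normal_iff_finite_and_isGalois
    (IntermediateField.fixedField H.toSubgroup)).1 ⟨by rw [hfix]; exact hUo, by rw [hfix]; exact hUn⟩
  have hF : FiniteDimensional k (IntermediateField.fixedField H.toSubgroup) := hFG.1
  have hG : IsGalois k (IntermediateField.fixedField H.toSubgroup) := hFG.2
  obtain ⟨c, hc⟩ := Algebra.trace_surjective k (IntermediateField.fixedField H.toSubgroup) 1
  have hfin : Finite (Gal(K/k) ⧸ H.toSubgroup) := Subgroup.quotient_finite_of_isOpen _ hUo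
  have hft : Fintype (Gal(K/k) ⧸ H.toSubgroup) := Fintype.ofFinite _
  have he : ∀ g : Gal(K/k),
      (QuotientGroup.mk g : Gal(K/k) ⧸ H.toSubgroup).out (c : K) = g (c : K) := by
    intro g
    obtain ⟨h, hh⟩ := QuotientGroup.mk_out_eq_mul H.toSubgroup g
    rw [hh, AlgEquiv.mul_apply]
    congr 1
    exact (IntermediateField.mem_fixedField_iff _ _).1 c.2 h h.2
  have hsum : ∑ t : Gal(K/k) ⧸ H.toSubgroup, t.out (c : K) = 1 := by
    have h1 := trace_eq_sum_automorphisms (K := k) c
    rw [hc, map_one] at h1
    have h2 := congrArg (fun x : IntermediateField.fixedField H.toSubgroup => (x : K)) h1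
    simp only [IntermediateField.coe_one, IntermediateField.coe_sum] at h2
    rw [h2]
    refine Fintype.sum_equiv (InfiniteGalois.normalAutEquivQuotient H).toEquiv _ _ fun t => ?_
    induction t using QuotientGroup.induction_on with
    | H g =>
      rw [he g]
      have h3 : (InfiniteGalois.normalAutEquivQuotient H).toEquiv
          (QuotientGroup.mk g : Gal(K/k) ⧸ H.toSubgroup) =
          AlgEquiv.restrictNormalHom (IntermediateField.fixedField H.toSubgroup) g := rfl
      rw [h3]
      exact (AlgEquiv.restrictNormal_commutes g _ c).symm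
  refine ⟨fun t => AddMonoidHom.mulLeft (t.out (c : K)), fun a => ?_, fun g t a => ?_⟩
  · rw [finsum_eq_sum_of_fintype]
    simp only [AddMonoidHom.coe_mulLeft]
    rw [← Finset.sum_mul, hsum, one_mul]
  · induction t using QuotientGroup.induction_on with
    | H h =>
      have h4 : g • (QuotientGroup.mk h : Gal(K/k) ⧸ H.toSubgroup) = QuotientGroup.mk (g * h) := rfl
      simp only [AddMonoidHom.coe_mulLeft]
      rw [h4, he, he]
      show g (h (c : K) * a) = (g * h) (c : K) * g a
      rw [map_mul]
      rfl

end Pool.Agent.Helper346.Cd
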