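import Pool.Agent.Helper346.Cd.Defs
import Pool.Agent.Helper346.Cd.CA

set_option autoImplicit false

open MvPolynomial

namespace Pool.Agent.Helper346.Cd



theorem smul_loc_9970 {X G M : Type*} [TopologicalSpace X] [Group G] [TopologicalSpace G]
    [IsTopologicalGroup G] [AddCommGroup M] [DistribMulAction G M] (hM : IsDiscreteModule G M)
    (φ : X → G) (hφ : Continuous φ) (h : X → M) (hh : IsLocallyConstant h) :
    IsLocallyConstant (fun x => φ x • h x) := by
  rw [IsLocallyConstant.iff_eventually_eq] at hh ⊢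
  intro x
  have h1 : IsOpen {y : X | (φ x)⁻¹ * φ y ∈ {g : G | g • h x = h x}} := by
    have hc : Continuous (fun y : X => (φ x)⁻¹ * φ y) := by fun_prop
    exact (hM (h x)).preimage hc
  have hx : x ∈ {y : X | (φ x)⁻¹ * φ y ∈ {g : G | g • h x = h x}} := by
    show ((φ x)⁻¹ * φ x) • h x = h x
    rw [inv_mul_cancel, one_smul]
  filter_upwards [h1.mem_nhds hx, hh x] with y hy1 hy2
  have hy3 : ((φ x)⁻¹ * φ y) • h x = h x := hy1
  rw [mul_smul, inv_smul_eq_iff] at hy3
  rw [hy2, hy3]

theorem diff_cochain_9970 {G M : Type*} [Group G] [TopologicalSpace G] [AddCommGroup M]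
    [DistribMulAction G M] (q : ℕ) (f : (Fin (q + 1) → G) → M) (hf : IsCochain q f) :
    IsCochain (q + 1) (diff q f) := by
  obtain ⟨h1, h2⟩ := hf
  constructor
  · rw [IsLocallyConstant.iff_eventually_eq] at h1 ⊢
    intro x
    have h3 : ∀ j : Fin (q + 2), ∀ᶠ y : Fin (q + 2) → G in nhds x,
        f (fun i => y (j.succAbove i)) = f (fun i => x (j.succAbove i)) := by
      intro j
      have hc : Continuous (fun (y : Fin (q + 2) → G) (i : Fin (q + 1)) => y (j.succAbove i)) := by
        fun_prop
      exact hc.continuousAt.eventually (h1 (fun i => x (j.succAbove i)))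
    filter_upwards [Filter.eventually_all.2 h3] with y hy
    unfold diff
    apply Finset.sum_congr rfl
    intro j _
    rw [hy j]
  · intro g x
    unfold diff
    rw [Finset.smul_sum]
    apply Finset.sum_congr rfl
    intro j _
    rw [h2 g (fun i => x (j.succAbove i)), smul_comm]

theorem diff_map_9970 {G M N : Type*} [AddCommGroup M] [AddCommGroup N] (p : M →+ N) (q : ℕ)
    (f : (Fin (q + 1) → G) → M) (x : Fin (q + 2) → G) :
    p (diff q f x) = diff q (fun y => p (f y)) x := by
  unfold diff
  rw [map_sum]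
  apply Finset.sum_congr rfl
  intro j _
  rw [map_zsmul]

theorem diff_add_9970 {G M : Type*} [AddCommGroup M] (q : ℕ)
    (f g : (Fin (q + 1) → G) → M) (x : Fin (q + 2) → G) :
    diff q (fun y => f y + g y) x = diff q f x + diff q g x := by
  unfold diff
  rw [← Finset.sum_add_distrib]
  apply Finset.sum_congr rfl
  intro j _
  rw [smul_add]

theorem diff_sub_9970 {G M : Type*} [AddCommGroup M] (q : ℕ)
    (f g : (Fin (q + 1) → G) → M) (x : Fin (q + 2) → G) :
    diff q (fun y => f y - g y) x = diff q f x - diff q g x := by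
  unfold diff
  rw [← Finset.sum_sub_distrib]
  apply Finset.sum_congr rfl
  intro j _
  rw [smul_sub]

theorem vanish_of_exact {G A B C : Type*} [Group G] [TopologicalSpace G] [IsTopologicalGroup G]
    [AddCommGroup A] [DistribMulAction G A] [AddCommGroup B] [DistribMulAction G B]
    [AddCommGroup C] [DistribMulAction G C] (hB : IsDiscreteModule G B)
    (i : A →+ B) (p : B →+ C) (hi : Function.Injective i) (hp : Function.Surjective p)
    (hip : ∀ b, p b = 0 ↔ ∃ a, i a = b) (gi : ∀ (g : G) (a : A), i (g • a) = g • i a)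
    (gp : ∀ (g : G) (b : B), p (g • b) = g • p b) (q : ℕ)
    (hA : HSuccVanishes G A q) (hC : HSuccVanishes G C q) : HSuccVanishes G B q := by
  have hCd : IsDiscreteModule G C := by
    intro c
    obtain ⟨b, rfl⟩ := hp c
    have h1 : IsOpen ((MulAction.stabilizer G b : Subgroup G) : Set G) := hB b
    have h2 : MulAction.stabilizer G b ≤ MulAction.stabilizer G (p b) := by
      intro g hg
      rw [MulAction.mem_stabilizer_iff] at hg ⊢
      rw [← gp, hg]
    exact Subgroup.isOpen_mono h2 h1
  intro f hf hdf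
  obtain ⟨hf1, hf2⟩ := hf
  -- step 1
  have hpf : IsCochain (q + 1) (fun x => p (f x)) :=
    ⟨hf1.comp p, fun g x => by
      show p (f (fun i => g * x i)) = g • p (f x)
      rw [hf2, gp]⟩
  have hdpf : diff (q + 1) (fun x => p (f x)) = 0 := by
    funext x
    rw [← diff_map_9970, hdf]
    simp
  obtain ⟨g0, ⟨hg01, hg02⟩, hg0⟩ := hC _ hpf hdpf
  -- step 3
  choose s hs using hp
  let g1 : (Fin (q + 1) → G) → B := fun x => x 0 • s ((x 0)⁻¹ • g0 x)
  have hg1c : IsCochain q g1 := by
    constructor
    · have h1 : IsLocallyConstant (fun x : Fin (q + 1) → G => (x 0)⁻¹ • g0 x) :=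
        smul_loc_9970 hCd (fun x : Fin (q + 1) → G => (x 0)⁻¹) (by fun_prop) g0 hg01
      exact smul_loc_9970 hB (fun x : Fin (q + 1) → G => x 0) (by fun_prop) _ (h1.comp s)
    · intro g x
      show (g * x 0) • s ((g * x 0)⁻¹ • g0 (fun i => g * x i)) = g • (x 0 • s ((x 0)⁻¹ • g0 x))
      rw [hg02, mul_inv_rev, mul_smul, mul_smul, inv_smul_smul]
  have hpg1 : ∀ x, p (g1 x) = g0 x := by
    intro x
    show p (x 0 • s ((x 0)⁻¹ • g0 x)) = g0 x
    rw [gp, hs, smul_inv_smul]
  -- step 4
  have hd1 := diff_cochain_9970 q g1 hg1c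
  have hpf' : ∀ x, p (f x - diff q g1 x) = 0 := by
    intro x
    rw [map_sub, diff_map_9970]
    have e : (fun y => p (g1 y)) = g0 := funext hpg1
    rw [e, hg0, sub_self]
  have hex : ∀ x, ∃ a, i a = f x - diff q g1 x := fun x => (hip _).1 (hpf' x)
  choose f2 hf2' using hex
  have hf2c : IsCochain (q + 1) f2 := by
    constructor
    · have h1 : IsLocallyConstant (fun x => f x - diff q g1 x) := hf1.sub hd1.1
      rw [IsLocallyConstant.iff_eventually_eq] at h1 ⊢
      intro x
      filter_upwards [h1 x] with y hy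
      apply hi
      rw [hf2', hf2']
      exact hy
    · intro g x
      apply hi
      rw [hf2', gi, hf2', hf2, hd1.2, smul_sub]
  have hdf2 : diff (q + 1) f2 = 0 := by
    funext x
    apply hi
    rw [diff_map_9970]
    have e : (fun y => i (f2 y)) = fun y => f y - diff q g1 y := funext hf2'
    rw [e, diff_sub_9970, hdf, diff_diff]
    simp
  obtain ⟨g2, ⟨hg21, hg22⟩, hg2⟩ := hA _ hf2c hdf2
  refine ⟨fun x => g1 x + i (g2 x), ⟨hg1c.1.add (hg21.comp i), fun g x => ?_⟩, ?_⟩
  · show g1 (fun j => g * x j) + i (g2 (fun j => g * x j)) = g • (g1 x + i (g2 x))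
    rw [hg1c.2, hg22, gi, smul_add]
  · funext x
    rw [diff_add_9970, ← diff_map_9970, hg2, hf2']
    abel

end Pool.Agent.Helper346.Cd
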