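import Pool.Agent.Helper346.Cd.Defs

set_option autoImplicit false

open MvPolynomial

namespace Pool.Agent.Helper346.Cd



theorem vanish_torsion_of_finite {G : Type*} [Group G] [TopologicalSpace G]
    [IsTopologicalGroup G] [CompactSpace G] (q : ℕ)
    (h : ∀ (M : Type) [AddCommGroup M] [DistribMulAction G M] [Finite M],
      IsDiscreteModule G M → HSuccVanishes G M q)
    (M : Type) [AddCommGroup M] [DistribMulAction G M] (hM : IsDiscreteModule G M)
    (ht : ∀ m : M, IsOfFinAddOrder m) : HSuccVanishes G M q := by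
  intro f hf hdf
  obtain ⟨hlc, heq⟩ := hf
  have hfin : (Set.range f).Finite := hlc.range_finite
  obtain ⟨M0, hM0⟩ : ∃ M0 : AddSubgroup M, M0 = AddSubgroup.closure (Set.range f) := ⟨_, rfl⟩
  have hmem : ∀ x, f x ∈ M0 := fun x => by
    rw [hM0]; exact AddSubgroup.subset_closure ⟨x, rfl⟩
  have hst : ∀ (g : G) (m : M), m ∈ M0 → g • m ∈ M0 := by
    intro g m hm
    rw [hM0] at hm
    induction hm using AddSubgroup.closure_induction with
    | mem x hx =>
      obtain ⟨y, rfl⟩ := hx
      rw [← heq]
      exact hmem _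
    | zero => rw [smul_zero]; exact M0.zero_mem
    | add x y _ _ hx hy => rw [smul_add]; exact M0.add_mem hx hy
    | neg x _ hx => rw [smul_neg]; exact M0.neg_mem hx
  have hfinM0 : Finite M0 := by
    have hfg : AddGroup.FG M0 := by
      rw [AddGroup.fg_iff_addSubgroup_fg, hM0]
      exact ⟨hfin.toFinset, by rw [Set.Finite.coe_toFinset]⟩
    have htor : IsAddTorsion M0 := by
      intro m
      have h1 := ht m.1
      rw [isOfFinAddOrder_iff_nsmul_eq_zero] at h1 ⊢
      obtain ⟨n, hn, h2⟩ := h1
      exact ⟨n, hn, Subtype.ext (by rw [AddSubgroup.coe_nsmul, h2]; rfl)⟩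
    exact AddCommGroup.finite_of_fg_isAddTorsion M0 htor
  let act : DistribMulAction G M0 :=
    { smul := fun g m => ⟨g • m.1, hst g m.1 m.2⟩
      one_smul := fun m => Subtype.ext (one_smul G m.1)
      mul_smul := fun a b m => Subtype.ext (mul_smul a b m.1)
      smul_zero := fun a => Subtype.ext (smul_zero a)
      smul_add := fun a x y => Subtype.ext (smul_add a x.1 y.1) }
  have hcoe : ∀ (g : G) (m : M0), ((g • m : M0) : M) = g • (m : M) := fun g m => rfl
  have hdisc : IsDiscreteModule G M0 := by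
    intro m
    have h1 : {g : G | g • m = m} = {g : G | g • (m : M) = (m : M)} := by
      ext g
      simp only [Set.mem_ofPred_eq]
      rw [← hcoe]
      exact Subtype.ext_iff
    rw [h1]
    exact hM m.1
  have hdiff : ∀ (r : ℕ) (u : (Fin (r + 1) → G) → M0) (x : Fin (r + 2) → G),
      ((diff r u x : M0) : M) = diff r (fun y => ((u y : M0) : M)) x := by
    intro r u x
    unfold diff
    have h1 := map_sum M0.subtype (fun j : Fin (r + 2) =>
      (-1 : ℤ) ^ (j : ℕ) • u (fun i => x (j.succAbove i))) Finset.univ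
    exact h1
  let f0 : (Fin (q + 2) → G) → M0 := fun x => ⟨f x, hmem x⟩
  have hf0 : IsCochain (q + 1) f0 := by
    refine ⟨IsLocallyConstant.desc f0 (Subtype.val : M0 → M) hlc Subtype.val_injective, ?_⟩
    intro g x
    apply Subtype.ext
    rw [hcoe]
    exact heq g x
  have hdf0 : diff (q + 1) f0 = 0 := by
    funext x
    apply Subtype.ext
    rw [hdiff]
    exact congrFun hdf x
  obtain ⟨g0, hg0, hg0'⟩ := h M0 hdisc f0 hf0 hdf0
  refine ⟨fun x => ((g0 x : M0) : M), ⟨hg0.1.comp Subtype.val, ?_⟩, ?_⟩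
  · intro g x
    have h1 := hg0.2 g x
    change ((g0 (fun i => g * x i) : M0) : M) = g • ((g0 x : M0) : M)
    rw [h1, hcoe]
  · funext x
    rw [← hdiff, hg0']

end Pool.Agent.Helper346.Cd
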