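import Pool.Agent.Helper346.Cd.Defs

set_option autoImplicit false

open MvPolynomial

namespace Pool.Agent.Helper346.Cd



theorem CL_basis {κ l : Type*} [Field κ] [Field l] [CharP κ 3] [Algebra κ l]
    [Algebra.IsSeparable κ l] {m : ℕ} (a : Fin m → κ)
    (ha : ∀ y : Fin m → κ, ∑ i, a i * y i ^ 3 = 0 → y = 0) (z : Fin m → l)
    (hz : ∑ i, algebraMap κ l (a i) * z i ^ 3 = 0) : z = 0 := by
  classical
  haveI : CharP l 3 := charP_of_injective_algebraMap (algebraMap κ l).injective 3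
  haveI : Fact (Nat.Prime 3) := ⟨Nat.prime_three⟩
  haveI : ExpChar κ 3 := ExpChar.prime Nat.prime_three
  let W : Submodule κ l := Submodule.span κ (Set.range z)
  haveI : FiniteDimensional κ W := FiniteDimensional.span_of_finite κ (Set.finite_range z)
  let b := Module.finBasis κ W
  have hb : LinearIndependent κ (fun j => (b j : l)) :=
    b.linearIndependent.map' W.subtype W.ker_subtype
  have hb3 := hb.map_pow_expChar_pow_of_isSeparable 3 1
  have hmem : ∀ i, z i ∈ W := fun i => Submodule.subset_span ⟨i, rfl⟩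
  obtain ⟨w, hw⟩ : ∃ w : Fin m → Fin (Module.finrank κ W) → κ,
      ∀ i, z i = ∑ j, w i j • (b j : l) := by
    refine ⟨fun i j => b.repr ⟨z i, hmem i⟩ j, fun i => ?_⟩
    have h := congrArg (fun v : W => (v : l)) (b.sum_repr ⟨z i, hmem i⟩)
    simp only [AddSubmonoidClass.coe_finset_sum, Submodule.coe_smul] at h
    exact h.symm
  have h1 : ∑ j, (∑ i, a i * w i j ^ 3) • (b j : l) ^ 3 ^ 1 = 0 := by
    rw [← hz]
    simp only [Finset.sum_smul]
    rw [Finset.sum_comm]
    apply Finset.sum_congr rfl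
    intro i _
    rw [hw i, sum_pow_char, Finset.mul_sum]
    apply Finset.sum_congr rfl
    intro j _
    rw [smul_pow, Algebra.smul_def, Algebra.smul_def, map_mul, pow_one]
    ring
  have h2 := Fintype.linearIndependent_iff.1 hb3 _ h1
  funext i
  rw [hw i, Pi.zero_apply]
  apply Finset.sum_eq_zero
  intro j _
  have h3 := ha (fun i => w i j) (h2 j)
  have h4 := congrFun h3 i
  simp only [Pi.zero_apply] at h4
  rw [h4, zero_smul]

theorem anisotropic_of_place {κ E l : Type*} [Field κ] [Field E] [Field l] [CharP κ 3]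
    [Algebra κ l] [Algebra.IsSeparable κ l] (n : ℕ) (a : Fin (n + 1) → κ)
    (ha : ∀ y : Fin (n + 1) → κ, ∑ i, a i * y i ^ 3 = 0 → y = 0)
    (ι : κ →+* E) (c : E) (O : ValuationSubring E) (r : O →+* l)
    (hr : ∀ z : O, r z = 0 ↔ z ∉ {u : O | IsUnit u})
    (hι : ∀ a : κ, ∃ h : ι a ∈ O, r ⟨ι a, h⟩ = algebraMap κ l a)
    (hc : ∃ h : c ∈ O, r ⟨c, h⟩ = 0) (x : Fin (n + 1) → E) (hx : x ≠ 0) :
    ∑ i, ι (a i) * x i ^ 3 + c * ∑ i : Fin n, x i.castSucc ^ 2 * x i.succ ≠ 0 := by
  intro hsum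
  obtain ⟨i0, -, hmax⟩ := Finset.exists_max_image (Finset.univ : Finset (Fin (n + 1)))
    (fun i => O.valuation (x i)) Finset.univ_nonempty
  have hx0 : x i0 ≠ 0 := by
    intro h0
    apply hx
    funext i
    have h1 := hmax i (Finset.mem_univ i)
    rw [h0, map_zero, le_zero_iff, map_eq_zero] at h1
    exact h1
  have hy : ∀ i, x i / x i0 ∈ O := by
    intro i
    rw [← O.valuation_le_one_iff, map_div₀]
    have hv : O.valuation (x i0) ≠ 0 := (map_ne_zero _).2 hx0
    exact (div_le_one₀ (zero_lt_iff.2 hv)).2 (hmax i (Finset.mem_univ i))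
  choose hιO hιr using hι
  obtain ⟨hcO, hcr⟩ := hc
  have hO : ∑ i, (⟨ι (a i), hιO (a i)⟩ : O) * (⟨x i / x i0, hy i⟩ : O) ^ 3 +
      (⟨c, hcO⟩ : O) * ∑ i : Fin n, (⟨x i.castSucc / x i0, hy _⟩ : O) ^ 2 *
        (⟨x i.succ / x i0, hy _⟩ : O) = 0 := by
    apply Subtype.ext
    push_cast
    have h1 : ∑ i, ι (a i) * (x i / x i0) ^ 3 = (∑ i, ι (a i) * x i ^ 3) / x i0 ^ 3 := by
      rw [Finset.sum_div]
      apply Finset.sum_congr rfl
      intro i _
      rw [div_pow, mul_div_assoc]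
    have h2 : ∑ i : Fin n, (x i.castSucc / x i0) ^ 2 * (x i.succ / x i0) =
        (∑ i : Fin n, x i.castSucc ^ 2 * x i.succ) / x i0 ^ 3 := by
      rw [Finset.sum_div]
      apply Finset.sum_congr rfl
      intro i _
      field_simp
    rw [h1, h2, mul_div_assoc', ← add_div, hsum, zero_div]
  have hr0 := congrArg r hO
  simp only [map_add, map_sum, map_mul, map_pow, map_zero, hcr, zero_mul, add_zero, hιr] at hr0
  have hz := CL_basis a ha (fun i => r ⟨x i / x i0, hy i⟩) hr0
  have h1 := congrFun hz i0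
  have h2 : (⟨x i0 / x i0, hy i0⟩ : O) = 1 := by
    apply Subtype.ext
    exact div_self hx0
  simp only [h2, map_one, Pi.zero_apply] at h1
  exact one_ne_zero h1

end Pool.Agent.Helper346.Cd
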