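import Pool.Agent.Helper346.Cd.Defs

set_option autoImplicit false

open MvPolynomial

namespace Pool.Agent.Helper346.Cd



section aux9967

open IntermediateField

variable {K Ω : Type*} [Field K] [Field Ω] [Algebra K Ω] [Algebra.IsSeparable K Ω]

private theorem prim9967 (T : IntermediateField K Ω) [FiniteDimensional K T] :
    ∃ β ∈ T, Module.finrank K T = (minpoly K β).natDegree := by
  obtain ⟨a, ha⟩ := Field.exists_primitive_element K T
  refine ⟨(a : Ω), a.2, ?_⟩
  have h1 := (Field.primitive_element_iff_minpoly_natDegree_eq K a).1 ha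
  rw [← h1]
  have h2 : minpoly K (algebraMap T Ω a) = minpoly K a :=
    minpoly.algebraMap_eq (algebraMap T Ω).injective a
  rw [← h2]
  rfl

private def good9967 (p : ℕ) (E : IntermediateField K Ω) : Prop :=
  ∀ β ∈ E, ¬ p ∣ (minpoly K β).natDegree

private theorem good_fd {p : ℕ} {E : IntermediateField K Ω} (hE : good9967 p E)
    (T : IntermediateField K Ω) (hT : T ≤ E) (hfd : FiniteDimensional K T) :
    ¬ p ∣ Module.finrank K T := by
  obtain ⟨β, hβ, h⟩ := prim9967 T
  rw [h]
  exact hE β (hT hβ)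

private theorem good_adjoin {p : ℕ} (hp : p.Prime) {E : IntermediateField K Ω}
    (hE : good9967 p E) (α : Ω) (hα : ¬ p ∣ (minpoly E α).natDegree) (β : Ω) (hβ : β ∈ E⟮α⟯) :
    ¬ p ∣ (minpoly K β).natDegree := by
  classical
  have halgK : ∀ x : Ω, IsIntegral K x := fun x => (Algebra.IsSeparable.isIntegral K x)
  have hαi : IsIntegral E α := (halgK α).tower_top
  have hβ' : β ∈ (E⟮α⟯).toSubalgebra := hβ
  rw [adjoin_simple_toSubalgebra_of_isAlgebraic hαi.isAlgebraic,
    Algebra.adjoin_singleton_eq_range_aeval] at hβ'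
  obtain ⟨g, hg⟩ := hβ'
  set m := minpoly E α with hm
  let C : Set Ω := (fun x : E => (x : Ω)) '' ((m.coeffs ∪ g.coeffs : Finset E) : Set E)
  have hCfin : C.Finite := (Finset.finite_toSet _).image _
  let E0 : IntermediateField K Ω := IntermediateField.adjoin K C
  have hE0 : E0 ≤ E := by
    apply IntermediateField.adjoin_le_iff.2
    rintro x ⟨y, -, rfl⟩
    exact y.2
  have hfd0 : FiniteDimensional K E0 := by
    have := hCfin.to_subtype
    exact IntermediateField.finiteDimensional_adjoin (fun x _ => halgK x)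
  have hp0 := good_fd hE E0 hE0 hfd0
  have hcoef : ∀ (h : Polynomial E), h.coeffs ⊆ m.coeffs ∪ g.coeffs →
      ∃ h0 : Polynomial E0, h0.map (algebraMap E0 Ω) = h.map (algebraMap E Ω) := by
    intro h hh
    have h1 : h.map (algebraMap E Ω) ∈ Polynomial.lifts (algebraMap E0 Ω) := by
      rw [Polynomial.lifts_iff_coeff_lifts]
      intro n
      rw [Polynomial.coeff_map]
      by_cases hn : h.coeff n = 0
      · rw [hn, map_zero]
        exact ⟨0, map_zero _⟩
      · have h2 : (h.coeff n : Ω) ∈ E0 := by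
          apply IntermediateField.subset_adjoin
          exact ⟨h.coeff n, hh (Polynomial.coeff_mem_coeffs hn), rfl⟩
        exact ⟨⟨_, h2⟩, rfl⟩
    obtain ⟨h0, hh0⟩ := (Polynomial.mem_lifts _).1 h1
    exact ⟨h0, hh0⟩
  obtain ⟨m0, hm0⟩ := hcoef m Finset.subset_union_left
  obtain ⟨g0, hg0⟩ := hcoef g Finset.subset_union_right
  have hmm : m.Monic := minpoly.monic hαi
  have hdeg : m0.natDegree = m.natDegree := by
    rw [← Polynomial.natDegree_map (algebraMap E0 Ω), hm0, Polynomial.natDegree_map]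
  have hm0m : m0.Monic := by
    have h1 : (m0.map (algebraMap E0 Ω)).Monic := by
      rw [hm0]; exact hmm.map _
    exact Polynomial.monic_of_injective (algebraMap E0 Ω).injective h1
  have hmap : m0.map (IntermediateField.inclusion hE0).toRingHom = m := by
    apply Polynomial.map_injective (algebraMap E Ω) (algebraMap E Ω).injective
    rw [Polynomial.map_map, ← hm0]
    rfl
  have hirr0 : Irreducible m0 := by
    apply Polynomial.Monic.irreducible_of_irreducible_map
      (IntermediateField.inclusion hE0).toRingHom m0 hm0m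
    rw [hmap]
    exact minpoly.irreducible hαi
  have hroot : Polynomial.aeval α m0 = 0 := by
    rw [Polynomial.aeval_def, ← Polynomial.eval_map, hm0, Polynomial.eval_map,
      ← Polynomial.aeval_def]
    exact minpoly.aeval E α
  have hmin0 : minpoly E0 α = m0 := (minpoly.eq_of_irreducible_of_monic hirr0 hroot hm0m).symm
  have hαi0 : IsIntegral E0 α := (halgK α).tower_top
  have hfin : Module.finrank E0 E0⟮α⟯ = m.natDegree := by
    rw [IntermediateField.adjoin.finrank hαi0, hmin0, hdeg]
  have hfd1 : FiniteDimensional E0 E0⟮α⟯ := IntermediateField.adjoin.finiteDimensional hαi0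
  have hfd2 : FiniteDimensional K E0⟮α⟯ := FiniteDimensional.trans K E0 E0⟮α⟯
  have hmul : Module.finrank K E0 * Module.finrank E0 E0⟮α⟯ = Module.finrank K E0⟮α⟯ :=
    Module.finrank_mul_finrank K E0 E0⟮α⟯
  have hβL : β ∈ E0⟮α⟯ := by
    have h1 : β = Polynomial.aeval α g0 := by
      have hg' : Polynomial.aeval α g = β := hg
      rw [Polynomial.aeval_def, ← Polynomial.eval_map, hg0, Polynomial.eval_map,
        ← Polynomial.aeval_def]
      exact hg'.symm
    rw [h1]
    exact (IntermediateField.algebra_adjoin_le_adjoin E0 {α})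
      (Polynomial.aeval_mem_adjoin_singleton E0 α)
  have hdvd : (minpoly K (⟨β, hβL⟩ : E0⟮α⟯)).natDegree ∣ Module.finrank K E0⟮α⟯ :=
    minpoly.degree_dvd (IsIntegral.of_finite K _)
  have htower : IsScalarTower K E0⟮α⟯ Ω := IsScalarTower.of_algebraMap_eq fun _ => rfl
  have hmineq : minpoly K β = minpoly K (⟨β, hβL⟩ : E0⟮α⟯) :=
    minpoly.algebraMap_eq (algebraMap E0⟮α⟯ Ω).injective (⟨β, hβL⟩ : E0⟮α⟯)
  rw [hmineq]
  intro hcon
  have h5 := hcon.trans hdvd
  rw [← hmul, hfin] at h5
  rcases hp.dvd_mul.1 h5 with h6 | h6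
  · exact hp0 h6
  · exact hα h6

end aux9967

theorem exists_maximal_prime_to (p : ℕ) (hp : p.Prime) (K Ω : Type*) [Field K] [Field Ω]
    [Algebra K Ω] [Algebra.IsSeparable K Ω] [IsSepClosed Ω] :
    ∃ E : IntermediateField K Ω,
      (∀ T : IntermediateField K Ω, T ≤ E → FiniteDimensional K T → ¬ p ∣ Module.finrank K T) ∧
      ∀ f : Polynomial E, Irreducible f → f.Separable → ¬ p ∣ f.natDegree → f.natDegree = 1 := by
  classical
  obtain ⟨E, -, hEmax⟩ := zorn_le_nonempty₀ {E : IntermediateField K Ω | good9967 p E} (by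
    intro c hc hchain y hy
    refine ⟨sSup c, ?_, fun z hz => le_sSup hz⟩
    intro β hβ
    have : Nonempty c := ⟨⟨y, hy⟩⟩
    have hβ' : β ∈ (↑(⨆ a : c, (a : IntermediateField K Ω)) : Set Ω) := by
      rw [← sSup_eq_iSup']; exact hβ
    rw [IntermediateField.coe_iSup_of_directed hchain.directedOn.directed_val] at hβ'
    obtain ⟨s, ⟨a, rfl⟩, hs⟩ := hβ'
    exact hc a.2 β hs) ⊥ (by
    intro β hβ
    obtain ⟨a, rfl⟩ := IntermediateField.mem_bot.1 hβ
    rw [minpoly.eq_X_sub_C, Polynomial.natDegree_X_sub_C]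
    exact hp.one_lt.ne' ∘ Nat.dvd_one.1)
  have hgood : good9967 p E := hEmax.prop
  refine ⟨E, fun T hT hfd => good_fd hgood T hT hfd, ?_⟩
  intro f hirr hsep hdeg
  obtain ⟨α, hα⟩ := IsSepClosed.exists_aeval_eq_zero (K := Ω) f
    (Polynomial.degree_pos_of_irreducible hirr).ne' hsep
  have hαi : IsIntegral E α := (Algebra.IsSeparable.isIntegral K α).tower_top
  have h1 : (minpoly E α).natDegree = f.natDegree := by
    rw [← minpoly.eq_of_irreducible hirr hα, Polynomial.natDegree_mul_C]
    exact inv_ne_zero (Polynomial.leadingCoeff_ne_zero.2 hirr.ne_zero)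
  rw [← h1] at hdeg ⊢
  have h2 : good9967 p ((IntermediateField.adjoin E {α}).restrictScalars K) := by
    intro β hβ
    exact good_adjoin hp hgood α hdeg β hβ
  have h3 : E ≤ (IntermediateField.adjoin E {α}).restrictScalars K := by
    intro x hx
    exact (IntermediateField.adjoin E {α}).algebraMap_mem ⟨x, hx⟩
  have h4 := hEmax.le_of_ge h2 h3
  have h5 : α ∈ E := h4 (IntermediateField.mem_adjoin_simple_self E α)
  have h6 : minpoly E α = Polynomial.X - Polynomial.C (⟨α, h5⟩ : E) :=
    minpoly.eq_X_sub_C Ω (⟨α, h5⟩ : E)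
  rw [h6, Polynomial.natDegree_X_sub_C]

end Pool.Agent.Helper346.Cd
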