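import Pool.Agent.Helper346.Cd.Defs

set_option autoImplicit false

open MvPolynomial

namespace Pool.Agent.Helper346.Cd



theorem finrank_eq_one_of_prime_to {k : Type*} [Field k] [CharP k 3]
    (hk : ∀ f : Polynomial k, Irreducible f → f.Separable → ¬ 3 ∣ f.natDegree → f.natDegree = 1)
    (M : Type*) [Field M] [Algebra k M] [FiniteDimensional k M]
    (h3 : ¬ 3 ∣ Module.finrank k M) : Module.finrank k M = 1 := by
  have hdvd : ∀ x : M, ¬ 3 ∣ (minpoly k x).natDegree := fun x h =>
    h3 (h.trans (minpoly.degree_dvd (Algebra.IsIntegral.isIntegral x)))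
  have hsep : Algebra.IsSeparable k M := by
    rw [Algebra.isSeparable_def]
    intro x
    rcases Polynomial.separable_or 3 (minpoly.irreducible (Algebra.IsIntegral.isIntegral (R := k) x))
      with h | ⟨_, g, _, hg⟩
    · exact h
    · exfalso
      apply hdvd x
      rw [← hg, Polynomial.natDegree_expand]
      exact dvd_mul_left _ _
  obtain ⟨x, hx⟩ := Field.exists_primitive_element k M
  have hint : IsIntegral k x := Algebra.IsIntegral.isIntegral x
  have h1 := IntermediateField.adjoin.finrank hint
  rw [hx, IntermediateField.finrank_top'] at h1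
  rw [h1]
  exact hk _ (minpoly.irreducible hint) (Algebra.IsSeparable.isSeparable k x) (hdvd x)

end Pool.Agent.Helper346.Cd
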