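import Pool.Agent.Helper346.Cd.Defs

set_option autoImplicit false

open MvPolynomial

namespace Pool.Agent.Helper346.Cd



theorem form_smooth {k : Type*} [Field k] [CharP k 3] (n : ℕ) (a : Fin (n + 1) → k) (c : k)
    (ha : a (Fin.last n) ≠ 0) (hc : c ≠ 0) : IsSmoothHypersurface (form n a c) := by
  intro x hx0 hF
  by_contra hcon
  push Not at hcon
  have : CharP (AlgebraicClosure k) 3 := charP_of_injective_algebraMap (algebraMap k (AlgebraicClosure k)).injective 3
  have h3 : (3 : AlgebraicClosure k) = 0 := by
    have := CharP.cast_eq_zero (AlgebraicClosure k) 3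
    simpa using this
  have hca : algebraMap k (AlgebraicClosure k) c ≠ 0 := by
    simpa using hc
  have hder : ∀ i, aeval x (pderiv i (form n a c)) = algebraMap k (AlgebraicClosure k) c *
      ∑ j : Fin n, ((if i = j.castSucc then 2 * x j.castSucc * x j.succ else 0) +
        (if i = j.succ then x j.castSucc ^ 2 else 0)) := by
    intro i
    unfold form
    have key : ∀ j : Fin n, aeval x (pderiv i (X j.castSucc ^ 2 * X j.succ : MvPolynomial (Fin (n+1)) k)) =
        ((if i = j.castSucc then 2 * x j.castSucc * x j.succ else 0) +
        (if i = j.succ then x j.castSucc ^ 2 else 0)) := by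
      intro j
      rw [Derivation.leibniz, Derivation.leibniz_pow, pderiv_X, pderiv_X]
      simp only [smul_eq_mul, nsmul_eq_mul, map_add, map_mul, map_pow, aeval_X, Pi.single_apply]
      by_cases h1 : i = j.castSucc <;> by_cases h2 : i = j.succ
      · simp [h1.symm, h2.symm]
        ring
      · simp [h1.symm, h2, Ne.symm h2]
        try ring
      · simp [h2.symm, h1, Ne.symm h1]
      · simp [h1, h2, Ne.symm h1, Ne.symm h2]
    have key2 : ∀ j : Fin (n+1), aeval x (pderiv i (C (a j) * X j ^ 3 : MvPolynomial (Fin (n+1)) k)) = 0 := by
      intro j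
      rw [Derivation.leibniz, Derivation.leibniz_pow, pderiv_C]
      simp [h3]
    rw [map_add, map_add, map_sum, map_sum, Finset.sum_congr rfl (fun j _ => key2 j),
      Derivation.leibniz, pderiv_C]
    simp only [Finset.sum_const_zero, zero_add, smul_eq_mul, mul_zero, add_zero, map_mul, aeval_C, map_sum]
    rw [Finset.sum_congr rfl (fun j _ => key j)]
  have hrel : ∀ i, ∑ j : Fin n, ((if i = j.castSucc then 2 * x j.castSucc * x j.succ else 0) +
        (if i = j.succ then x j.castSucc ^ 2 else 0)) = 0 := by
    intro i
    have := hder i
    rw [hcon i] at this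
    rcases mul_eq_zero.mp this.symm with h | h
    · exact absurd h hca
    · exact h
  -- relation at succ
  have hstep : ∀ m : ℕ, ∀ (i : Fin n), (i : ℕ) + m + 1 = n → x i.castSucc = 0 := by
    intro m
    induction m with
    | zero =>
      intro i hi
      have h := hrel i.succ
      rw [Finset.sum_eq_single i] at h
      · have h1 : i.succ ≠ i.castSucc := by
          intro h; have := congrArg Fin.val h; simp at this
        simpa [h1] using h
      · intro j _ hj
        have h1 : i.succ ≠ j.castSucc := by
          intro h; have := congrArg Fin.val h; simp at this; omega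
        have h2 : i.succ ≠ j.succ := by
          intro h; exact hj (Fin.succ_injective _ h).symm
        simp [h1, h2]
      · intro h; exact absurd (Finset.mem_univ _) h
    | succ m ih =>
      intro i hi
      have hlt : (i : ℕ) + 1 < n := by omega
      set i' : Fin n := ⟨(i : ℕ) + 1, hlt⟩ with hi'
      have hx' : x i'.castSucc = 0 := ih i' (by simp [hi']; omega)
      have hcs : i.succ = i'.castSucc := by ext; simp [hi']
      have h := hrel i.succ
      rw [Finset.sum_eq_single i] at h
      · have h1 : i.succ ≠ i.castSucc := by
          intro h; have := congrArg Fin.val h; simp at this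
        simpa [h1] using h
      · intro j _ hj
        have h2 : i.succ ≠ j.succ := by
          intro h; exact hj (Fin.succ_injective _ h).symm
        by_cases h1 : i.succ = j.castSucc
        · have : x j.castSucc = 0 := by rw [← h1, hcs]; exact hx'
          simp [h2, this]
        · simp [h1, h2]
      · intro h; exact absurd (Finset.mem_univ _) h
  have hz : ∀ i : Fin n, x i.castSucc = 0 := by
    intro i
    exact hstep (n - 1 - i) i (by omega)
  have hFv : aeval x (form n a c) = algebraMap k (AlgebraicClosure k) (a (Fin.last n)) * x (Fin.last n) ^ 3 := by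
    unfold form
    simp only [map_add, map_sum, map_mul, map_pow, aeval_C, aeval_X]
    rw [Fin.sum_univ_castSucc]
    simp [hz]
  rw [hFv] at hF
  have hxl : x (Fin.last n) = 0 := by
    rcases mul_eq_zero.mp hF with h | h
    · exfalso; apply ha; simpa using h
    · exact pow_eq_zero_iff (by norm_num) |>.mp h
  apply hx0
  funext i
  refine Fin.lastCases ?_ ?_ i
  · simpa using hxl
  · intro j; simpa using hz j

theorem form_homogeneous {k : Type*} [Field k] (n : ℕ) (a : Fin (n + 1) → k) (c : k) :
    (form n a c).IsHomogeneous 3 := by
  unfold form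
  apply IsHomogeneous.add
  · apply IsHomogeneous.sum
    intro i _
    have h1 := (isHomogeneous_C (Fin (n+1)) (a i)).mul ((isHomogeneous_X k i).pow 3)
    simpa using h1
  · have h2 : (∑ i : Fin n, (X i.castSucc ^ 2 * X i.succ : MvPolynomial (Fin (n+1)) k)).IsHomogeneous 3 := by
      apply IsHomogeneous.sum
      intro i _
      have h1 := ((isHomogeneous_X k i.castSucc).pow 2).mul (isHomogeneous_X k i.succ)
      simpa using h1
    have h3 := (isHomogeneous_C (Fin (n+1)) c).mul h2
    simpa using h3

end Pool.Agent.Helper346.Cd
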