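import Pool.Agent.Helper346.Cd.Defs

set_option autoImplicit false

open MvPolynomial

namespace Pool.Agent.Helper346.Cd



theorem cr_sum {k : Type*} [Field k] {n : ℕ} {F : MvPolynomial (Fin (n + 1)) k}
    (hF : F.IsHomogeneous 3) (m : Fin (n + 1) →₀ ℕ) (hm : m ∈ F.support) : ∑ i, m i = 3 := by
  have h := hF (mem_support_iff.1 hm)
  simpa [Finsupp.weight_apply, Finsupp.sum_fintype] using h

theorem cr_aeval {k A : Type*} [Field k] [CommRing A] [Algebra k A] {n : ℕ}
    (F : MvPolynomial (Fin (n + 1)) k) (x : Fin (n + 1) → A) :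
    aeval x F = ∑ m ∈ F.support, algebraMap k A (F.coeff m) * ∏ i, x i ^ m i := by
  rw [aeval_def, eval₂_eq']

theorem cr_scale {k A : Type*} [Field k] [CommRing A] [Algebra k A] {n : ℕ}
    (F : MvPolynomial (Fin (n + 1)) k) (hF : F.IsHomogeneous 3) (x : Fin (n + 1) → A) (c : A) :
    aeval (fun i => c * x i) F = c ^ 3 * aeval x F := by
  rw [cr_aeval, cr_aeval, Finset.mul_sum]
  refine Finset.sum_congr rfl fun m hm => ?_
  have h1 : ∏ i, (c * x i) ^ m i = c ^ 3 * ∏ i, x i ^ m i := by
    simp only [mul_pow]
    rw [Finset.prod_mul_distrib, Finset.prod_pow_eq_pow_sum, cr_sum hF m hm]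
  rw [h1]; ring

theorem cr_fin {k : Type*} [Field k] {n : ℕ} (x : Fin (n + 1) → AlgebraicClosure k) :
    FiniteDimensional k (pointField k x) := by
  have hfin : Finite {z : AlgebraicClosure k | ∃ i j, x j ≠ 0 ∧ z = x i / x j} := by
    refine (Set.Finite.subset (Set.finite_range
      (fun p : Fin (n + 1) × Fin (n + 1) => x p.1 / x p.2)) ?_).to_subtype
    rintro z ⟨i, j, _, rfl⟩
    exact ⟨(i, j), rfl⟩
  exact IntermediateField.finiteDimensional_adjoin
    (S := {z : AlgebraicClosure k | ∃ i j, x j ≠ 0 ∧ z = x i / x j})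
    (fun z _ => (Algebra.IsAlgebraic.isAlgebraic z).isIntegral)

theorem cr_dvd {k : Type*} [Field k] {n : ℕ}
    (hk : ∀ (M : IntermediateField k (AlgebraicClosure k)) [FiniteDimensional k M],
      ¬ 3 ∣ Module.finrank k M → Module.finrank k M = 1)
    (F : MvPolynomial (Fin (n + 1)) k) (hF : F.IsHomogeneous 3) (hrat : ¬ HasRationalPoint F)
    (x : Fin (n + 1) → AlgebraicClosure k) (hx : x ≠ 0) (hx0 : aeval x F = 0) :
    3 ∣ Module.finrank k (pointField k x) := by
  by_contra h3
  haveI := cr_fin x
  have h1 := hk (pointField k x) h3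
  rw [IntermediateField.finrank_eq_one_iff] at h1
  obtain ⟨j, hj⟩ : ∃ j, x j ≠ 0 := by
    by_contra hcon
    push Not at hcon
    exact hx (funext hcon)
  have h2 : ∀ i, ∃ y : k, algebraMap k (AlgebraicClosure k) y = x i / x j := by
    intro i
    have : x i / x j ∈ pointField k x :=
      IntermediateField.subset_adjoin k _ ⟨i, j, hj, rfl⟩
    rw [h1, IntermediateField.mem_bot] at this
    exact this
  choose y hy using h2
  apply hrat
  refine ⟨y, ?_, ?_⟩
  · intro hy0
    have := hy j
    rw [hy0, Pi.zero_apply, map_zero, div_self hj] at this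
    exact zero_ne_one this
  · have hinj := (algebraMap k (AlgebraicClosure k)).injective
    apply hinj
    rw [map_zero]
    have e1 : algebraMap k (AlgebraicClosure k) (eval y F) =
        aeval (fun i => algebraMap k (AlgebraicClosure k) (y i)) F := by
      rw [cr_aeval, eval_eq', map_sum]
      refine Finset.sum_congr rfl fun m _ => ?_
      rw [map_mul, map_prod]
      simp only [map_pow]
    have e2 : (fun i => algebraMap k (AlgebraicClosure k) (y i)) = fun i => (x j)⁻¹ * x i := by
      funext i
      rw [hy i, div_eq_inv_mul]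
    rw [e1, e2, cr_scale F hF, hx0, mul_zero]

/-- the polynomial of the restriction to a line -/
noncomputable def crP {k : Type*} [Field k] {n : ℕ} (F : MvPolynomial (Fin (n + 1)) k) :
    Polynomial k :=
  aeval (Fin.cons Polynomial.X (fun i : Fin n => Polynomial.C (if (i : ℕ) = 0 then (1 : k) else 0)) :
    Fin (n + 1) → Polynomial k) F

theorem crP_eq {k : Type*} [Field k] {n : ℕ} (F : MvPolynomial (Fin (n + 1)) k) :
    crP F = ∑ m ∈ F.support, Polynomial.C (F.coeff m *
      ∏ i : Fin n, (if (i : ℕ) = 0 then (1 : k) else 0) ^ m i.succ) * Polynomial.X ^ m 0 := by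
  unfold crP
  rw [cr_aeval]
  refine Finset.sum_congr rfl fun m _ => ?_
  rw [Fin.prod_univ_succ]
  simp only [Fin.cons_zero, Fin.cons_succ]
  rw [Polynomial.C_mul, map_prod]
  simp only [map_pow]
  rw [Polynomial.algebraMap_eq]
  ring

theorem crP_deg {k : Type*} [Field k] {n : ℕ} (F : MvPolynomial (Fin (n + 1)) k)
    (hF : F.IsHomogeneous 3) : (crP F).natDegree ≤ 3 := by
  rw [crP_eq]
  refine Polynomial.natDegree_sum_le_of_forall_le _ _ fun m hm => ?_
  refine (Polynomial.natDegree_C_mul_X_pow_le _ _).trans ?_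
  have := cr_sum hF m hm
  rw [← this]
  exact Finset.single_le_sum (f := fun i => m i) (fun i _ => Nat.zero_le _) (Finset.mem_univ 0)

theorem crP_coeff {k : Type*} [Field k] {n : ℕ} (F : MvPolynomial (Fin (n + 1)) k)
    (hF : F.IsHomogeneous 3) :
    (crP F).coeff 3 = eval (Fin.cons 1 (fun _ => 0) : Fin (n + 1) → k) F := by
  rw [crP_eq, eval_eq', Polynomial.finset_sum_coeff]
  refine Finset.sum_congr rfl fun m hm => ?_
  have hs := cr_sum hF m hm
  rw [Fin.sum_univ_succ] at hs
  rw [Polynomial.coeff_C_mul, Polynomial.coeff_X_pow, Fin.prod_univ_succ]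
  simp only [Fin.cons_zero, Fin.cons_succ, one_pow, one_mul]
  by_cases h3 : m 0 = 3
  · have h0 : ∀ i : Fin n, m i.succ = 0 := by
      intro i
      have : ∑ i : Fin n, m i.succ = 0 := by omega
      exact (Finset.sum_eq_zero_iff.1 this) i (Finset.mem_univ i)
    simp [h3, h0]
  · have hex : ∃ i : Fin n, m i.succ ≠ 0 := by
      by_contra hcon
      push Not at hcon
      apply h3
      simp only [hcon, Finset.sum_const_zero, add_zero] at hs
      exact hs
    obtain ⟨i, hi⟩ := hex
    have e1 : ∏ i : Fin n, (0 : k) ^ m i.succ = 0 :=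
      Finset.prod_eq_zero (Finset.mem_univ i) (zero_pow hi)
    rw [e1, if_neg (fun h => h3 h.symm), mul_zero, mul_zero]

theorem index_three {k : Type*} [Field k] (n : ℕ) (hn : 1 ≤ n)
    (hk : ∀ (M : IntermediateField k (AlgebraicClosure k)) [FiniteDimensional k M],
      ¬ 3 ∣ Module.finrank k M → Module.finrank k M = 1)
    (F : MvPolynomial (Fin (n + 1)) k) (hF : F.IsHomogeneous 3) (hrat : ¬ HasRationalPoint F) :
    IsIndex F 3 := by
  refine ⟨?_, ?_⟩
  · rintro d ⟨x, hx, hx0, rfl⟩
    exact cr_dvd hk F hF hrat x hx hx0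
  · intro m' hm'
    apply hm'
    -- a point of degree three
    have hc : (crP F).coeff 3 ≠ 0 := by
      rw [crP_coeff F hF]
      intro h0
      apply hrat
      refine ⟨_, ?_, h0⟩
      intro h
      have := congrFun h 0
      simp at this
    have hdeg3 : 3 ≤ (crP F).natDegree := Polynomial.le_natDegree_of_ne_zero hc
    have hP0 : crP F ≠ 0 := by
      intro h; rw [h] at hc; simp at hc
    have hdeg : (crP F).degree ≠ 0 := by
      intro h
      have h' : (crP F).natDegree = 0 := Polynomial.natDegree_eq_of_degree_eq_some (by simpa using h)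
      omega
    obtain ⟨s, hs⟩ := IsAlgClosed.exists_aeval_eq_zero (AlgebraicClosure k) (crP F) hdeg
    set x : Fin (n + 1) → AlgebraicClosure k := Fin.cons s
      (fun i : Fin n => if (i : ℕ) = 0 then 1 else 0) with hx
    have hx1 : x (Fin.succ ⟨0, hn⟩) = 1 := by
      rw [hx, Fin.cons_succ]; simp
    have hxne : x ≠ 0 := by
      intro h
      rw [h] at hx1
      simp at hx1
    have hx0 : aeval x F = 0 := by
      have e : (Polynomial.aeval s : Polynomial k →ₐ[k] AlgebraicClosure k) (crP F) = aeval x F := by
        unfold crP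
        rw [← AlgHom.comp_apply]
        congr 1
        apply MvPolynomial.algHom_ext
        intro i
        rw [AlgHom.comp_apply, aeval_X, aeval_X, hx]
        refine Fin.cases ?_ (fun i => ?_) i
        · simp
        · rw [Fin.cons_succ, Fin.cons_succ]
          split_ifs <;> simp
      rw [← e]; exact hs
    refine ⟨x, hxne, hx0, ?_⟩
    have hd := cr_dvd hk F hF hrat x hxne hx0
    haveI := cr_fin x
    have hpos : 0 < Module.finrank k (pointField k x) := Module.finrank_pos
    have hint : IsIntegral k s := (Algebra.IsAlgebraic.isAlgebraic s).isIntegral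
    haveI : FiniteDimensional k (IntermediateField.adjoin k {s}) :=
      IntermediateField.adjoin.finiteDimensional hint
    have hle : pointField k x ≤ IntermediateField.adjoin k {s} := by
      unfold pointField
      rw [IntermediateField.adjoin_le_iff]
      have hxm : ∀ i, x i ∈ IntermediateField.adjoin k {s} := by
        intro i
        rw [hx]
        refine Fin.cases ?_ (fun i => ?_) i
        · rw [Fin.cons_zero]
          exact IntermediateField.mem_adjoin_simple_self k s
        · rw [Fin.cons_succ]
          split_ifs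
          · exact one_mem _
          · exact zero_mem _
      rintro z ⟨i, j, _, rfl⟩
      exact div_mem (hxm i) (hxm j)
    have h1 := IntermediateField.finrank_le_of_le_right hle
    rw [IntermediateField.adjoin.finrank hint] at h1
    have h2 : (minpoly k s).natDegree ≤ 3 :=
      (Polynomial.natDegree_le_of_dvd (minpoly.dvd k s hs) hP0).trans (crP_deg F hF)
    obtain ⟨q, hq⟩ := hd
    omega

end Pool.Agent.Helper346.Cd
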