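import Pool.Agent.Helper346.Cd.Defs2

set_option autoImplicit false

open MvPolynomial

namespace Pool.Agent.Helper346.Cd



theorem hDA_single {k : Type*} [Field k] {N : ℕ} (a : k) (i j l : Fin N) :
    ∃ t : Fin N → Fin N → Fin N → k, ∀ x : Fin N → k, a * (x i * x j * x l) = tri t x x x := by
  classical
  refine ⟨fun i' j' l' => if i' = i then (if j' = j then (if l' = l then a else 0) else 0) else 0,
    fun x => ?_⟩
  unfold tri
  rw [Finset.sum_eq_single i]
  · rw [Finset.sum_eq_single j]
    · rw [Finset.sum_eq_single l]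
      · simp
      · intro l' _ h; simp [h]
      · intro h; exact absurd (Finset.mem_univ _) h
    · intro j' _ h; simp [h]
    · intro h; exact absurd (Finset.mem_univ _) h
  · intro i' _ h; simp [h]
  · intro h; exact absurd (Finset.mem_univ _) h

theorem hDA_monomial {k : Type*} [Field k] {N : ℕ} (m : Fin N →₀ ℕ) (hm : m.degree = 3) (a : k) :
    ∃ t : Fin N → Fin N → Fin N → k, ∀ x : Fin N → k,
      eval x (monomial m a) = tri t x x x := by
  classical
  have hcard : Multiset.card (Finsupp.toMultiset m) = 3 := by
    rw [Finsupp.card_toMultiset, ← hm]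
    rfl
  obtain ⟨i, j, l, hs⟩ := Multiset.card_eq_three.1 hcard
  have hm' : m = Finsupp.single i 1 + (Finsupp.single j 1 + Finsupp.single l 1) := by
    have h1 : m = Multiset.toFinsupp (Finsupp.toMultiset m) := by simp
    rw [h1, hs]
    rw [show ({i, j, l} : Multiset (Fin N)) = {i} + ({j} + {l}) from rfl, map_add, map_add,
      Multiset.toFinsupp_singleton, Multiset.toFinsupp_singleton, Multiset.toFinsupp_singleton]
  obtain ⟨t, ht⟩ := hDA_single a i j l
  refine ⟨t, fun x => ?_⟩
  rw [← ht x, hm', eval_monomial, Finsupp.prod_add_index', Finsupp.prod_add_index',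
    Finsupp.prod_single_index, Finsupp.prod_single_index, Finsupp.prod_single_index]
  · ring
  all_goals first
    | (intro; simp)
    | (intro _ _ _; rw [pow_add])
    | simp

theorem exists_tri {k : Type*} [Field k] {N : ℕ} (F : MvPolynomial (Fin N) k)
    (hF : F.IsHomogeneous 3) : ∃ t : Fin N → Fin N → Fin N → k, ∀ x : Fin N → k,
      eval x F = tri t x x x := by
  classical
  have key : ∀ s : Finset (Fin N →₀ ℕ), (∀ m ∈ s, m.degree = 3) →
      ∃ t : Fin N → Fin N → Fin N → k, ∀ x : Fin N → k,
        eval x (∑ m ∈ s, monomial m (coeff m F)) = tri t x x x := by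
    intro s
    induction s using Finset.induction_on with
    | empty =>
      intro _
      refine ⟨fun _ _ _ => 0, fun x => ?_⟩
      simp [tri]
    | insert m s hms ih =>
      intro h
      obtain ⟨t1, h1⟩ := hDA_monomial m (h m (Finset.mem_insert_self _ _)) (coeff m F)
      obtain ⟨t2, h2⟩ := ih (fun m' hm' => h m' (Finset.mem_insert_of_mem hm'))
      refine ⟨fun i j l => t1 i j l + t2 i j l, fun x => ?_⟩
      rw [Finset.sum_insert hms, map_add, h1, h2]
      unfold tri
      simp only [add_mul, Finset.sum_add_distrib]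
  obtain ⟨t, ht⟩ := key F.support (by
    intro m hm
    have h1 := hF (mem_support_iff.1 hm)
    rw [← h1, Finsupp.degree_eq_weight_one]
    rfl)
  refine ⟨t, fun x => ?_⟩
  rw [← ht x, ← MvPolynomial.as_sum]

end Pool.Agent.Helper346.Cd
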