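import Pool.Agent.Helper346.Cd.Defs2

set_option autoImplicit false

open MvPolynomial

namespace Pool.Agent.Helper346.Cd



theorem j10141_comb {E : Type*} [Field E] {N : ℕ} (t : Fin N → Fin N → Fin N → E)
    (x y : Fin N → E) (s u : E) :
    tri t (s • x + u • y) (s • x + u • y) (s • x + u • y) =
      s ^ 3 * tri t x x x + s ^ 2 * u * (tri t x x y + tri t x y x + tri t y x x) +
      s * u ^ 2 * (tri t x y y + tri t y x y + tri t y y x) + u ^ 3 * tri t y y y := by
  unfold tri
  simp only [Finset.mul_sum, mul_add, ← Finset.sum_add_distrib]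
  apply Finset.sum_congr rfl
  intro i _
  apply Finset.sum_congr rfl
  intro j _
  apply Finset.sum_congr rfl
  intro l _
  simp only [Pi.add_apply, Pi.smul_apply, smul_eq_mul]
  ring

theorem j10141_map {E L : Type*} [Field E] [Field L] [Algebra E L] {N : ℕ}
    (t : Fin N → Fin N → Fin N → E) (x y z : Fin N → E) :
    tri (fun i j l => algebraMap E L (t i j l)) (fun i => algebraMap E L (x i))
      (fun i => algebraMap E L (y i)) (fun i => algebraMap E L (z i)) = algebraMap E L (tri t x y z) := by
  unfold tri
  simp only [map_sum, map_mul]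

theorem quadratic_descent {E L : Type*} [Field E] [Field L] [Algebra E L] {N : ℕ}
    (t : Fin N → Fin N → Fin N → E) (d : L) (hd : ∃ e : E, d ^ 2 = algebraMap E L e)
    (hd' : ¬ ∃ e : E, d = algebraMap E L e) (x y : Fin N → E)
    (hxy : (fun i => algebraMap E L (x i) + d * algebraMap E L (y i)) ≠ 0)
    (h : tri (fun i j l => algebraMap E L (t i j l))
      (fun i => algebraMap E L (x i) + d * algebraMap E L (y i))
      (fun i => algebraMap E L (x i) + d * algebraMap E L (y i))
      (fun i => algebraMap E L (x i) + d * algebraMap E L (y i)) = 0) :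
    ∃ z : Fin N → E, z ≠ 0 ∧ tri t z z z = 0 := by
  obtain ⟨e, he⟩ := hd
  set φ := algebraMap E L with hφ
  have hinj : Function.Injective φ := (algebraMap E L).injective
  set a := tri t x x x with ha
  set b := tri t y y y with hb
  set A := tri t x x y + tri t x y x + tri t y x x with hA
  set B := tri t x y y + tri t y x y + tri t y y x with hB
  have hu : (fun i => φ (x i) + d * φ (y i)) = (1 : L) • (fun i => φ (x i)) + d • (fun i => φ (y i)) := by
    funext i
    simp
  have h1 : φ a + d * φ A + d ^ 2 * φ B + d ^ 3 * φ b = 0 := by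
    rw [hu, j10141_comb] at h
    simp only [hφ, j10141_map] at h
    rw [hA, hB, ha, hb]
    simp only [map_add]
    linear_combination h
  have h2 : φ (a + e * B) + d * φ (A + e * b) = 0 := by
    simp only [map_add, map_mul]
    linear_combination h1 - φ B * he - d * φ b * he
  have h3 : A + e * b = 0 := by
    by_contra hne
    have hne' : φ (A + e * b) ≠ 0 := by
      rw [Ne, map_eq_zero]
      exact hne
    apply hd'
    refine ⟨-(a + e * B) / (A + e * b), ?_⟩
    rw [map_div₀, map_neg, eq_div_iff hne']
    linear_combination h2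
  have h4 : a + e * B = 0 := by
    rw [h3, map_zero, mul_zero, add_zero, map_eq_zero] at h2
    exact h2
  have hz : tri t (b • x + (-B) • y) (b • x + (-B) • y) (b • x + (-B) • y) = 0 := by
    rw [j10141_comb, ← ha, ← hb, ← hA, ← hB]
    linear_combination b ^ 3 * h4 - b ^ 2 * B * h3
  by_cases hz0 : b • x + (-B) • y = 0
  swap
  · exact ⟨_, hz0, hz⟩
  by_cases hb0 : b = 0
  · rw [hb0, zero_smul, zero_add] at hz0
    rcases smul_eq_zero.1 hz0 with hB0 | hy0
    · have hB0' : B = 0 := neg_eq_zero.1 hB0
      have ha0 : a = 0 := by rw [hB0', mul_zero, add_zero] at h4; exact h4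
      by_cases hx0 : x = 0
      · by_cases hy0 : y = 0
        · exfalso
          apply hxy
          rw [hx0, hy0]
          funext i
          simp
        · exact ⟨y, hy0, hb0⟩
      · exact ⟨x, hx0, ha0⟩
    · have hB0 : B = 0 := by
        rw [hB, hy0]
        simp [tri]
      have ha0 : a = 0 := by rw [hB0, mul_zero, add_zero] at h4; exact h4
      by_cases hx0 : x = 0
      · exfalso
        apply hxy
        rw [hx0, hy0]
        funext i
        simp
      · exact ⟨x, hx0, ha0⟩
  · exfalso
    set l := B / b with hl
    have hx : x = l • y := by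
      have h5 : b • x = B • y := by
        have := hz0
        rw [neg_smul, ← sub_eq_add_neg, sub_eq_zero] at this
        exact this
      rw [hl, div_eq_inv_mul, mul_smul, ← h5, smul_smul, inv_mul_cancel₀ hb0, one_smul]
    have hu2 : (fun i => φ (x i) + d * φ (y i)) =
        (φ l + d) • (fun i => φ (y i)) + (0 : L) • (fun i => φ (y i)) := by
      funext i
      rw [hx]
      simp
      ring
    rw [hu2, j10141_comb] at h
    simp only [hφ, j10141_map] at h
    have h6 : (φ l + d) ^ 3 * φ b = 0 := by
      rw [hb]
      linear_combination h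
    rcases mul_eq_zero.1 h6 with h7 | h7
    · have h8 : φ l + d = 0 := by
        exact pow_eq_zero_iff (by norm_num) |>.1 h7
      apply hd'
      refine ⟨-l, ?_⟩
      rw [map_neg]
      linear_combination h8
    · rw [map_eq_zero] at h7
      exact hb0 h7

end Pool.Agent.Helper346.Cd
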