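import Pool.Agent.Helper346.Cd.Defs2
import Pool.Agent.Helper346.Cd.DB

set_option autoImplicit false

open MvPolynomial

namespace Pool.Agent.Helper346.Cd



theorem tri_map {E L : Type*} [Field E] [Field L] (f : E →+* L) {N : ℕ}
    (t : Fin N → Fin N → Fin N → E) (x y z : Fin N → E) :
    tri (fun i j l => f (t i j l)) (fun i => f (x i)) (fun i => f (y i)) (fun i => f (z i)) =
      f (tri t x y z) := by
  unfold tri
  simp only [map_sum, map_mul]

theorem eqc_aux {k Ω : Type} [Field k] [CharP k 3] [Field Ω] [Algebra k Ω] [IsSepClosed Ω]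
    [Algebra.IsSeparable k Ω] {N : ℕ}
    (t : Fin N → Fin N → Fin N → k) (ht : ∀ x : Fin N → k, x ≠ 0 → tri t x x x ≠ 0) :
    ∃ E : IntermediateField k Ω, BinaryIsotropic E ∧
      ∀ x : Fin N → E, x ≠ 0 → tri (fun i j l => algebraMap k E (t i j l)) x x x ≠ 0 := by
  classical
  haveI : CharP Ω 3 := charP_of_injective_algebraMap (algebraMap k Ω).injective 3
  have h2Ω : (2 : Ω) ≠ 0 := by
    intro h
    have h' : ((2 : ℕ) : Ω) = 0 := by exact_mod_cast h
    rw [CharP.cast_eq_zero_iff Ω 3] at h'
    omega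
  haveI : NeZero (2 : Ω) := ⟨h2Ω⟩
  let S : Set (IntermediateField k Ω) := {E | ∀ x : Fin N → Ω, (∀ i, x i ∈ E) → x ≠ 0 →
    tri (fun i j l => algebraMap k Ω (t i j l)) x x x ≠ 0}
  have hbot : (⊥ : IntermediateField k Ω) ∈ S := by
    intro x hx hx0 h
    choose y hy using fun i => IntermediateField.mem_bot.mp (hx i)
    have hxy : x = fun i => algebraMap k Ω (y i) := funext fun i => (hy i).symm
    rw [hxy, tri_map (algebraMap k Ω)] at h
    have h1 : tri t y y y = 0 := (map_eq_zero _).mp h
    refine ht y ?_ h1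
    rintro rfl
    apply hx0
    rw [hxy]
    funext i
    simp
  obtain ⟨E, -, hE⟩ := zorn_le_nonempty₀ S (by
    intro c hcS hc y hy
    haveI : Nonempty c := ⟨⟨y, hy⟩⟩
    have hdir : Directed (· ≤ ·) (Subtype.val : c → IntermediateField k Ω) :=
      hc.directedOn.directed_val
    refine ⟨⨆ E : c, E.1, ?_, fun z hz => le_iSup (fun E : c => E.1) ⟨z, hz⟩⟩
    intro x hx hx0
    have hx' : ∀ i, ∃ F : c, x i ∈ F.1 := by
      intro i
      have h1 : x i ∈ ((⨆ E : c, E.1 : IntermediateField k Ω) : Set Ω) := hx i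
      rw [IntermediateField.coe_iSup_of_directed hdir, Set.mem_iUnion] at h1
      exact h1
    choose g hg using hx'
    obtain ⟨z, hz⟩ := hdir.finset_le (Finset.univ.image g)
    refine hcS z.2 x (fun i => ?_) hx0
    exact hz (g i) (Finset.mem_image_of_mem g (Finset.mem_univ i)) (hg i)) ⊥ hbot
  have hES : E ∈ S := hE.prop
  have hEprop : ∀ x : Fin N → E, x ≠ 0 →
      tri (fun i j l => algebraMap k E (t i j l)) x x x ≠ 0 := by
    intro x hx0 h
    refine hES (fun i => (x i : Ω)) (fun i => (x i).2) ?_ ?_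
    · intro h1
      apply hx0
      funext i
      exact Subtype.ext (congrFun h1 i)
    · have h2 := tri_map (algebraMap E Ω) (fun i j l => algebraMap k E (t i j l)) x x x
      rw [h, map_zero] at h2
      exact h2
  refine ⟨E, ?_, hEprop⟩
  intro α β γ
  by_cases hα : α = 0
  · refine ⟨1, 0, Or.inl one_ne_zero, ?_⟩
    rw [hα]; ring
  have h2E : (2 : E) ≠ 0 := by
    intro h
    apply h2Ω
    have := congrArg (algebraMap E Ω) h
    rw [map_ofNat, map_zero] at this
    exact this
  by_cases hsq : ∃ e0 : E, e0 ^ 2 = β ^ 2 - 4 * α * γ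
  · obtain ⟨e0, he0⟩ := hsq
    refine ⟨(-β + e0) / (2 * α), 1, Or.inr one_ne_zero, ?_⟩
    field_simp
    linear_combination he0
  exfalso
  obtain ⟨d, hd⟩ := IsSepClosed.exists_eq_mul_self (algebraMap E Ω (β ^ 2 - 4 * α * γ))
  have hd2 : d ^ 2 = algebraMap E Ω (β ^ 2 - 4 * α * γ) := by rw [hd]; ring
  have hdE : ¬ ∃ e : E, d = algebraMap E Ω e := by
    rintro ⟨e, he⟩
    apply hsq
    refine ⟨e, ?_⟩
    apply (algebraMap E Ω).injective
    rw [map_pow, ← he, hd2]
  have halg : IsAlgebraic E d := by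
    haveI : Algebra.IsAlgebraic k Ω := inferInstance
    exact (Algebra.IsAlgebraic.isAlgebraic (R := k) d).tower_top E
  have hdec : ∀ z ∈ IntermediateField.adjoin E {d}, ∃ u v : E,
      z = algebraMap E Ω u + d * algebraMap E Ω v := by
    intro z hz
    have hz' : z ∈ (IntermediateField.adjoin E {d}).toSubalgebra := hz
    rw [IntermediateField.adjoin_simple_toSubalgebra_of_isAlgebraic halg] at hz'
    induction hz' using Algebra.adjoin_induction with
    | mem x hx =>
      rw [Set.mem_singleton_iff] at hx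
      exact ⟨0, 1, by rw [hx]; simp⟩
    | algebraMap r => exact ⟨r, 0, by simp⟩
    | add x y _ _ hx hy =>
      obtain ⟨u, v, rfl⟩ := hx (by
        rename_i h _
        have : x ∈ (IntermediateField.adjoin E {d}).toSubalgebra := by
          rw [IntermediateField.adjoin_simple_toSubalgebra_of_isAlgebraic halg]; assumption
        exact this)
      obtain ⟨u', v', rfl⟩ := hy (by
        have : y ∈ (IntermediateField.adjoin E {d}).toSubalgebra := by
          rw [IntermediateField.adjoin_simple_toSubalgebra_of_isAlgebraic halg]; assumption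
        exact this)
      exact ⟨u + u', v + v', by simp only [map_add]; ring⟩
    | mul x y _ _ hx hy =>
      obtain ⟨u, v, rfl⟩ := hx (by
        have : x ∈ (IntermediateField.adjoin E {d}).toSubalgebra := by
          rw [IntermediateField.adjoin_simple_toSubalgebra_of_isAlgebraic halg]; assumption
        exact this)
      obtain ⟨u', v', rfl⟩ := hy (by
        have : y ∈ (IntermediateField.adjoin E {d}).toSubalgebra := by
          rw [IntermediateField.adjoin_simple_toSubalgebra_of_isAlgebraic halg]; assumption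
        exact this)
      refine ⟨u * u' + (β ^ 2 - 4 * α * γ) * (v * v'), u * v' + v * u', ?_⟩
      simp only [map_add, map_mul]
      linear_combination (algebraMap E Ω v * algebraMap E Ω v') * hd2
  let E2 : IntermediateField k Ω := (IntermediateField.adjoin E {d}).restrictScalars k
  have hdE2 : d ∈ E2 := IntermediateField.mem_adjoin_simple_self E d
  have hle : E ≤ E2 := by
    intro z hz
    show z ∈ IntermediateField.adjoin E {d}
    exact (IntermediateField.adjoin E {d}).algebraMap_mem (⟨z, hz⟩ : E)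
  have hE2 : E2 ∉ S := by
    intro h
    have h1 : E2 ≤ E := hE.le_of_ge h hle
    exact hdE ⟨⟨d, h1 hdE2⟩, rfl⟩
  have hE2' : ∃ x : Fin N → Ω, (∀ i, x i ∈ E2) ∧ x ≠ 0 ∧
      tri (fun i j l => algebraMap k Ω (t i j l)) x x x = 0 := by
    by_contra hcon
    apply hE2
    intro x hx hx0 h
    exact hcon ⟨x, hx, hx0, h⟩
  obtain ⟨x, hx, hx0, hx3⟩ := hE2'
  choose u v huv using fun i => hdec (x i) (hx i)
  have hxe : x = fun i => algebraMap E Ω (u i) + d * algebraMap E Ω (v i) := funext huv
  obtain ⟨z, hz0, hz⟩ := quadratic_descent (E := E) (L := Ω)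
    (fun i j l => algebraMap k E (t i j l)) d ⟨_, hd2⟩ hdE u v (by rw [← hxe]; exact hx0) (by
      rw [← hxe]; exact hx3)
  exact hEprop z hz0 hz

theorem exists_quadratically_closed {k : Type} [Field k] [CharP k 3] {N : ℕ}
    (t : Fin N → Fin N → Fin N → k) (ht : ∀ x : Fin N → k, x ≠ 0 → tri t x x x ≠ 0) :
    ∃ (E : Type) (_ : Field E) (_ : Algebra k E), Algebra.IsSeparable k E ∧ BinaryIsotropic E ∧
      ∀ x : Fin N → E, x ≠ 0 →
        tri (fun i j l => algebraMap k E (t i j l)) x x x ≠ 0 := by
  obtain ⟨E, h1, h2⟩ := eqc_aux (Ω := SeparableClosure k) t ht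
  exact ⟨E, inferInstance, inferInstance, inferInstance, h1, h2⟩

end Pool.Agent.Helper346.Cd
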