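import Pool.Agent.Helper346.Cd.Defs2

set_option autoImplicit false

open MvPolynomial

namespace Pool.Agent.Helper346.Cd



theorem spansCubes_map {k E : Type*} [Field k] [CharP k 3] [Field E] [Algebra k E]
    [Algebra.IsSeparable k E] {m : ℕ} (b : Fin m → k) (hb : SpansCubes b) :
    SpansCubes (fun j => algebraMap k E (b j)) := by
  intro x
  haveI : Fact (Nat.Prime 3) := ⟨Nat.prime_three⟩
  haveI : ExpChar k 3 := ExpChar.prime Nat.prime_three
  haveI : CharP E 3 := charP_of_injective_algebraMap (algebraMap k E).injective 3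
  have hx3 : IntermediateField.adjoin k {x} = IntermediateField.adjoin k {x ^ 3} :=
    IntermediateField.adjoin_simple_eq_adjoin_pow_expChar_of_isSeparable' k E x 3
  have hmem : x ∈ IntermediateField.adjoin k {x ^ 3} := by
    rw [← hx3]
    exact IntermediateField.mem_adjoin_simple_self k x
  have halg : IsAlgebraic k (x ^ 3) :=
    (Algebra.IsSeparable.isIntegral k (x ^ 3)).isAlgebraic
  have hmem2 : x ∈ Algebra.adjoin k {x ^ 3} := by
    rw [← IntermediateField.adjoin_simple_toSubalgebra_of_isAlgebraic halg]
    exact hmem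
  rw [Algebra.adjoin_singleton_eq_range_aeval] at hmem2
  obtain ⟨p, hp⟩ := hmem2
  have key : ∀ p : Polynomial k, ∃ c : Fin m → E,
      Polynomial.aeval (x ^ 3) p = ∑ j, algebraMap k E (b j) * c j ^ 3 := by
    intro p
    induction p using Polynomial.induction_on' with
    | add p q hp hq =>
      obtain ⟨c, hc⟩ := hp
      obtain ⟨d, hd⟩ := hq
      refine ⟨fun j => c j + d j, ?_⟩
      rw [map_add, hc, hd, ← Finset.sum_add_distrib]
      refine Finset.sum_congr rfl (fun j _ => ?_)
      rw [add_pow_char, mul_add]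
    | monomial n a =>
      obtain ⟨c, hc⟩ := hb a
      refine ⟨fun j => algebraMap k E (c j) * x ^ n, ?_⟩
      rw [Polynomial.aeval_monomial, hc, map_sum, Finset.sum_mul]
      refine Finset.sum_congr rfl (fun j _ => ?_)
      rw [map_mul, map_pow]
      ring
  obtain ⟨c, hc⟩ := key p
  refine ⟨c, ?_⟩
  rw [← hc]
  exact hp.symm

end Pool.Agent.Helper346.Cd
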