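import Pool.Agent.Helper346.Cd.Defs2

set_option autoImplicit false

open MvPolynomial

namespace Pool.Agent.Helper346.Cd



theorem exists_totally_isotropic_aux {E : Type*} [Field E] (hE : BinaryIsotropic E) {V : Type*}
    [AddCommGroup V] [Module E V] [FiniteDimensional E V] (Q : QuadraticForm E V) (d : ℕ) :
    ∀ V1 : Submodule E V, Module.finrank E V1 = d → ∃ W ≤ V1, (∀ w ∈ W, Q w = 0) ∧
      d ≤ 2 * Module.finrank E W + 1 := by
  induction d using Nat.strong_induction_on with
  | _ d ih =>
    intro V1 hV1
    rcases Nat.lt_or_ge d 2 with hd | hd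
    · refine ⟨⊥, bot_le, ?_, by omega⟩
      intro w hw
      rw [(Submodule.mem_bot E).1 hw, QuadraticMap.map_zero]
    obtain ⟨e, he⟩ := exists_linearIndependent_of_le_finrank (R := E) (M := V1) (n := 2) (by omega)
    obtain ⟨s, t, hst, h0⟩ := hE (Q (e 0)) (QuadraticMap.polar Q (e 0) (e 1)) (Q (e 1))
    set v : V := s • (e 0 : V) + t • (e 1 : V) with hv
    have hvV : v ∈ V1 := add_mem (V1.smul_mem _ (e 0).2) (V1.smul_mem _ (e 1).2)
    have hv0 : v ≠ 0 := by
      intro h
      have h1 : s • e 0 + t • e 1 = 0 := by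
        apply Subtype.ext
        simpa [hv] using h
      have h2 := (LinearIndependent.pair_iff (x := e 0) (y := e 1)).1 (by
        have h3 : e = ![e 0, e 1] := by
          ext i; fin_cases i <;> rfl
        rw [← h3]; exact he) s t h1
      rcases hst with h3 | h3
      · exact h3 h2.1
      · exact h3 h2.2
    have hQv : Q v = 0 := by
      rw [hv, QuadraticMap.map_add Q, QuadraticMap.map_smul, QuadraticMap.map_smul,
        QuadraticMap.polar_smul_left, QuadraticMap.polar_smul_right]
      simp only [smul_eq_mul]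
      linear_combination h0
    set ℓ : V →ₗ[E] E := QuadraticMap.polarBilin Q v with hℓ
    have hℓv : ∀ x, ℓ x = QuadraticMap.polar Q v x := fun x => rfl
    set n := Module.finrank E V with hn
    have hK : n ≤ Module.finrank E (LinearMap.ker ℓ) + 1 := by
      have h1 := LinearMap.finrank_range_add_finrank_ker ℓ
      have h2 : Module.finrank E (LinearMap.range ℓ) ≤ 1 := by
        have := Submodule.finrank_le (LinearMap.range ℓ)
        rwa [Module.finrank_self] at this
      omega
    set H : Submodule E V := V1 ⊓ LinearMap.ker ℓ with hH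
    have hHd : d ≤ Module.finrank E H + 1 := by
      have h1 := Submodule.finrank_sup_add_finrank_inf_eq V1 (LinearMap.ker ℓ)
      have h2 := Submodule.finrank_le (V1 ⊔ LinearMap.ker ℓ)
      rw [← hH] at h1
      omega
    have hHd' : Module.finrank E H ≤ d := by
      rw [← hV1]
      exact Submodule.finrank_mono inf_le_left
    have hvH : v ∈ H := by
      refine ⟨hvV, ?_⟩
      rw [SetLike.mem_coe, LinearMap.mem_ker, hℓv, QuadraticMap.polar_self, hQv, smul_zero]
    obtain ⟨C, hC⟩ := Submodule.exists_isCompl (E ∙ v)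
    have hsv : Module.finrank E (E ∙ v) = 1 := finrank_span_singleton hv0
    have hCn : Module.finrank E C + 1 = n := by
      have := Submodule.finrank_add_eq_of_isCompl hC
      omega
    set U : Submodule E V := H ⊓ C with hU
    have hUd : Module.finrank E U + 1 = Module.finrank E H := by
      have h1 := Submodule.finrank_sup_add_finrank_inf_eq H C
      have h2 : H ⊔ C = ⊤ := by
        rw [eq_top_iff, ← hC.sup_eq_top]
        exact sup_le_sup_right ((Submodule.span_singleton_le_iff_mem _ _).2 hvH) _
      rw [h2, finrank_top, ← hU] at h1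
      omega
    obtain ⟨W0, hW0, hiso, hdim⟩ := ih (Module.finrank E U) (by omega) U rfl
    have hW0C : W0 ≤ C := hW0.trans inf_le_right
    have hW0H : W0 ≤ H := hW0.trans inf_le_left
    refine ⟨(E ∙ v) ⊔ W0, sup_le ((Submodule.span_singleton_le_iff_mem _ _).2 hvV)
      (hW0H.trans inf_le_left), ?_, ?_⟩
    · intro w hw
      obtain ⟨x, hx, w0, hw0, rfl⟩ := Submodule.mem_sup.1 hw
      obtain ⟨a, rfl⟩ := Submodule.mem_span_singleton.1 hx
      rw [QuadraticMap.map_add Q, QuadraticMap.map_smul, hQv, hiso w0 hw0,
        QuadraticMap.polar_smul_left, ← hℓv]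
      have h1 : ℓ w0 = 0 := (hW0H hw0).2
      rw [h1]
      simp
    · have h1 := Submodule.finrank_sup_add_finrank_inf_eq (E ∙ v) W0
      have h2 : (E ∙ v) ⊓ W0 = ⊥ := by
        rw [eq_bot_iff, ← hC.inf_eq_bot]
        exact inf_le_inf_left _ hW0C
      rw [h2, finrank_bot, hsv] at h1
      omega

theorem exists_totally_isotropic {E : Type*} [Field E] (hE : BinaryIsotropic E) {V : Type*}
    [AddCommGroup V] [Module E V] [FiniteDimensional E V] (Q : QuadraticForm E V) :
    ∃ W : Submodule E V, (∀ w ∈ W, Q w = 0) ∧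
      Module.finrank E V ≤ 2 * Module.finrank E W + 1 := by
  obtain ⟨W, -, h1, h2⟩ := exists_totally_isotropic_aux hE Q (Module.finrank E V) ⊤ (finrank_top E V)
  exact ⟨W, h1, h2⟩

end Pool.Agent.Helper346.Cd
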