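import Pool.Agent.Helper346.Cd.Defs2
import Pool.Agent.Helper346.Cd.DE

set_option autoImplicit false

open MvPolynomial

namespace Pool.Agent.Helper346.Cd



theorem tri_add1 {E : Type*} [Field E] {N : ℕ} (t : Fin N → Fin N → Fin N → E)
    (x x' y z : Fin N → E) : tri t (x + x') y z = tri t x y z + tri t x' y z := by
  simp only [tri, Pi.add_apply, add_mul, mul_add, Finset.sum_add_distrib]

theorem tri_add2 {E : Type*} [Field E] {N : ℕ} (t : Fin N → Fin N → Fin N → E)
    (x y y' z : Fin N → E) : tri t x (y + y') z = tri t x y z + tri t x y' z := by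
  simp only [tri, Pi.add_apply, add_mul, mul_add, Finset.sum_add_distrib]

theorem tri_add3 {E : Type*} [Field E] {N : ℕ} (t : Fin N → Fin N → Fin N → E)
    (x y z z' : Fin N → E) : tri t x y (z + z') = tri t x y z + tri t x y z' := by
  simp only [tri, Pi.add_apply, mul_add, Finset.sum_add_distrib]

theorem tri_smul1 {E : Type*} [Field E] {N : ℕ} (t : Fin N → Fin N → Fin N → E)
    (c : E) (x y z : Fin N → E) : tri t (c • x) y z = c * tri t x y z := by
  simp only [tri, Pi.smul_apply, smul_eq_mul, Finset.mul_sum]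
  refine Finset.sum_congr rfl fun i _ => Finset.sum_congr rfl fun j _ =>
    Finset.sum_congr rfl fun l _ => ?_
  ring

theorem tri_smul2 {E : Type*} [Field E] {N : ℕ} (t : Fin N → Fin N → Fin N → E)
    (c : E) (x y z : Fin N → E) : tri t x (c • y) z = c * tri t x y z := by
  simp only [tri, Pi.smul_apply, smul_eq_mul, Finset.mul_sum]
  refine Finset.sum_congr rfl fun i _ => Finset.sum_congr rfl fun j _ =>
    Finset.sum_congr rfl fun l _ => ?_
  ring

theorem tri_smul3 {E : Type*} [Field E] {N : ℕ} (t : Fin N → Fin N → Fin N → E)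
    (c : E) (x y z : Fin N → E) : tri t x y (c • z) = c * tri t x y z := by
  simp only [tri, Pi.smul_apply, smul_eq_mul, Finset.mul_sum]
  refine Finset.sum_congr rfl fun i _ => Finset.sum_congr rfl fun j _ =>
    Finset.sum_congr rfl fun l _ => ?_
  ring

theorem finrank_inf_ker_aux {E : Type*} [Field E] {N : ℕ} (V : Submodule E (Fin N → E))
    (f : (Fin N → E) →ₗ[E] E) :
    Module.finrank E V ≤ Module.finrank E (V ⊓ LinearMap.ker f : Submodule E (Fin N → E)) + 1 := by
  have h1 := Submodule.finrank_sup_add_finrank_inf_eq V (LinearMap.ker f)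
  have h2 := LinearMap.finrank_range_add_finrank_ker f
  have h3 : Module.finrank E (LinearMap.range f) ≤ Module.finrank E E :=
    Submodule.finrank_le _
  rw [Module.finrank_self] at h3
  have h4 : Module.finrank E (V ⊔ LinearMap.ker f : Submodule E (Fin N → E)) ≤
      Module.finrank E (Fin N → E) := Submodule.finrank_le _
  omega

theorem exists_diagonal {E : Type*} [Field E] [CharP E 3] (hE : BinaryIsotropic E) {N : ℕ}
    (t : Fin N → Fin N → Fin N → E) (r : ℕ) (V : Submodule E (Fin N → E))
    (hV : 3 * 2 ^ r ≤ Module.finrank E V + 2) :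
    ∃ v : Fin (r + 1) → (Fin N → E), LinearIndependent E v ∧ (∀ i, v i ∈ V) ∧
      ∀ s : Fin (r + 1) → E, tri t (∑ i, s i • v i) (∑ i, s i • v i) (∑ i, s i • v i)
        = ∑ i, s i ^ 3 * tri t (v i) (v i) (v i) := by
  induction r generalizing V with
  | zero =>
    have h1 : 0 < Module.finrank E V := by
      rw [pow_zero] at hV
      omega
    have hV0 : V ≠ ⊥ := by
      intro h
      rw [h, finrank_bot] at h1
      exact lt_irrefl _ h1
    obtain ⟨v, hv, hv0⟩ := V.exists_mem_ne_zero_of_ne_bot hV0
    refine ⟨fun _ => v, ?_, fun _ => hv, ?_⟩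
    · show LinearIndependent E (fun _ : Fin 1 => v)
      exact linearIndependent_unique_iff.mpr hv0
    · intro s
      have e1 : ∑ i : Fin (0 + 1), s i • v = s 0 • v := Fin.sum_univ_one (fun i => s i • v)
      have e2 : ∑ i : Fin (0 + 1), s i ^ 3 * tri t v v v = s 0 ^ 3 * tri t v v v :=
        Fin.sum_univ_one (fun i => s i ^ 3 * tri t v v v)
      rw [e1, e2, tri_smul1, tri_smul2, tri_smul3]
      ring
  | succ r ih =>
    have h2r : 1 ≤ 2 ^ r := Nat.one_le_two_pow
    rw [pow_succ] at hV
    have h1 : 0 < Module.finrank E V := by omega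
    have hV0 : V ≠ ⊥ := by
      intro h
      rw [h, finrank_bot] at h1
      exact lt_irrefl _ h1
    obtain ⟨v, hv, hv0⟩ := V.exists_mem_ne_zero_of_ne_bot hV0
    obtain ⟨i0, hi0⟩ := Function.ne_iff.mp hv0
    let A : (Fin N → E) →ₗ[E] E :=
      { toFun := fun y => tri t v v y + tri t v y v + tri t y v v
        map_add' := fun x y => by
          rw [tri_add1, tri_add2, tri_add3]
          ring
        map_smul' := fun c x => by
          rw [tri_smul1, tri_smul2, tri_smul3, RingHom.id_apply, smul_eq_mul]
          ring }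
    have hA : ∀ y, A y = tri t v v y + tri t v y v + tri t y v v := fun y => rfl
    let U : Submodule E (Fin N → E) := V ⊓ LinearMap.ker A ⊓ LinearMap.ker (LinearMap.proj i0)
    have hUV : ∀ y ∈ U, y ∈ V := fun y hy => hy.1.1
    have hUA : ∀ y ∈ U, A y = 0 := fun y hy => hy.1.2
    have hU0 : ∀ y ∈ U, y i0 = 0 := fun y hy => hy.2
    have hUrank : Module.finrank E V ≤ Module.finrank E U + 2 := by
      have h3 := finrank_inf_ker_aux V A
      have h4 := finrank_inf_ker_aux (V ⊓ LinearMap.ker A) (LinearMap.proj i0)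
      have h5 : Module.finrank E U = Module.finrank E (V ⊓ LinearMap.ker A ⊓
        LinearMap.ker (LinearMap.proj i0) : Submodule E (Fin N → E)) := rfl
      omega
    let B : U →ₗ[E] U →ₗ[E] E := LinearMap.mk₂ E
      (fun x y : U => tri t v x y + tri t x v y + tri t x y v)
      (fun x x' y => by
        rw [Submodule.coe_add, tri_add1, tri_add1, tri_add2]
        ring)
      (fun c x y => by
        rw [Submodule.coe_smul, tri_smul1, tri_smul1, tri_smul2, smul_eq_mul]
        ring)
      (fun x y y' => by
        rw [Submodule.coe_add, tri_add3, tri_add3, tri_add2]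
        ring)
      (fun c x y => by
        rw [Submodule.coe_smul, tri_smul3, tri_smul3, tri_smul2, smul_eq_mul]
        ring)
    have hB : ∀ x y : U, B x y = tri t v x y + tri t x v y + tri t x y v := fun x y => rfl
    let Q : QuadraticForm E U := LinearMap.BilinMap.toQuadraticMap B
    have hQ : ∀ x : U, Q x = B x x := fun x => rfl
    obtain ⟨W', hW'0, hW'r⟩ := exists_totally_isotropic hE Q
    let W : Submodule E (Fin N → E) := W'.map U.subtype
    have hWr : Module.finrank E W = Module.finrank E W' :=
      Submodule.finrank_map_subtype_eq U W'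
    have hWU : ∀ y ∈ W, y ∈ U := by
      rintro y ⟨x, -, rfl⟩
      exact x.2
    have hWQ : ∀ y ∈ W, tri t v y y + tri t y v y + tri t y y v = 0 := by
      rintro y ⟨x, hx, rfl⟩
      have := hW'0 x hx
      rw [hQ, hB] at this
      exact this
    obtain ⟨v', hv'1, hv'2, hv'3⟩ := ih W (by omega)
    refine ⟨Fin.cons v v', ?_, ?_, ?_⟩
    · apply LinearIndependent.finCons hv'1
      intro hmem
      have h3 : Submodule.span E (Set.range v') ≤ W := by
        rw [Submodule.span_le]
        rintro _ ⟨i, rfl⟩
        exact hv'2 i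
      exact hi0 (hU0 v (hWU v (h3 hmem)))
    · intro i
      refine Fin.cases ?_ (fun j => ?_) i
      · rw [Fin.cons_zero]
        exact hv
      · rw [Fin.cons_succ]
        exact hUV _ (hWU _ (hv'2 j))
    · intro s
      have hw : ∑ i : Fin (r + 1), s i.succ • v' i ∈ W :=
        W.sum_mem (fun i _ => W.smul_mem _ (hv'2 i))
      have e1 : ∑ i, s i • (Fin.cons v v' : Fin (r + 1 + 1) → (Fin N → E)) i =
          s 0 • v + ∑ i : Fin (r + 1), s i.succ • v' i := by
        rw [Fin.sum_univ_succ]
        simp only [Fin.cons_zero, Fin.cons_succ]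
      have e2 : ∑ i, s i ^ 3 * tri t ((Fin.cons v v' : Fin (r + 1 + 1) → (Fin N → E)) i)
          ((Fin.cons v v' : Fin (r + 1 + 1) → (Fin N → E)) i)
          ((Fin.cons v v' : Fin (r + 1 + 1) → (Fin N → E)) i) =
          s 0 ^ 3 * tri t v v v +
            ∑ i : Fin (r + 1), s i.succ ^ 3 * tri t (v' i) (v' i) (v' i) := by
        rw [Fin.sum_univ_succ]
        simp only [Fin.cons_zero, Fin.cons_succ]
      rw [e1, e2, ← hv'3 (fun i => s i.succ)]
      set w := ∑ i : Fin (r + 1), s i.succ • v' i with hwdef
      have h5 := hUA w (hWU w hw)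
      rw [hA] at h5
      have h6 := hWQ w hw
      simp only [tri_add1, tri_add2, tri_add3, tri_smul1, tri_smul2, tri_smul3]
      linear_combination (s 0) ^ 2 * h5 + (s 0) * h6

end Pool.Agent.Helper346.Cd
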