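import Mathlib

set_option autoImplicit false

open MvPolynomial

namespace Pool.Agent.Helper346.Cd

/-! ### Continuous cohomology of a profinite group and cohomological dimension at most one -/

/-- `M` is a discrete `G`-module: the stabiliser of every element of `M` is open in `G`. -/
def IsDiscreteModule (G M : Type*) [Group G] [TopologicalSpace G] [AddCommGroup M]
    [DistribMulAction G M] : Prop :=
  ∀ m : M, IsOpen {g : G | g • m = m}

/-- `f : G^(q+1) → M` is a homogeneous continuous `q`-cochain: it is continuous for the discrete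
topology on `M` (that is, locally constant) and `G`-equivariant. -/
def IsCochain {G M : Type*} [Group G] [TopologicalSpace G] [AddCommGroup M]
    [DistribMulAction G M] (q : ℕ) (f : (Fin (q + 1) → G) → M) : Prop :=
  IsLocallyConstant f ∧ ∀ (g : G) (x : Fin (q + 1) → G), f (fun i => g * x i) = g • f x

/-- The differential of homogeneous cochains:
`(df)(x₀, …, x_(q+1)) = ∑ⱼ (-1)ʲ f(x₀, …, x̂ⱼ, …, x_(q+1))`. -/
def diff {G M : Type*} [AddCommGroup M] (q : ℕ) (f : (Fin (q + 1) → G) → M) :
    (Fin (q + 2) → G) → M :=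
  fun x => ∑ j : Fin (q + 2), (-1 : ℤ) ^ (j : ℕ) • f (fun i => x (j.succAbove i))

/-- `H^(q+1)(G, M) = 0`: every continuous homogeneous `(q+1)`-cocycle is the differential of a
continuous homogeneous `q`-cochain. -/
def HSuccVanishes (G M : Type*) [Group G] [TopologicalSpace G] [AddCommGroup M]
    [DistribMulAction G M] (q : ℕ) : Prop :=
  ∀ f : (Fin (q + 2) → G) → M, IsCochain (q + 1) f → diff (q + 1) f = 0 →
    ∃ g : (Fin (q + 1) → G) → M, IsCochain q g ∧ diff q g = f

/-- The topological group `G` has cohomological dimension at most one: `H^q(G, M) = 0` for all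
`q ≥ 2` and all discrete torsion `G`-modules `M`. -/
def CdLeOne (G : Type) [Group G] [TopologicalSpace G] : Prop :=
  ∀ (M : Type) [AddCommGroup M] [DistribMulAction G M], IsDiscreteModule G M →
    (∀ m : M, IsOfFinAddOrder m) → ∀ q : ℕ, 1 ≤ q → HSuccVanishes G M q

/-- Every open normal subgroup of `G` has index a power of `3`. -/
def IsProThree (G : Type*) [Group G] [TopologicalSpace G] : Prop :=
  ∀ U : Subgroup G, U.Normal → IsOpen (U : Set G) → ∃ m : ℕ, U.index = 3 ^ m

/-! ### Hypersurfaces, their closed points and their index -/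

/-- The hypersurface `F = 0` in `ℙⁿ` over `k` is smooth: at every geometric point of it some
first order partial derivative of `F` does not vanish. -/
def IsSmoothHypersurface {k : Type*} [Field k] {n : ℕ} (F : MvPolynomial (Fin (n + 1)) k) : Prop :=
  ∀ x : Fin (n + 1) → AlgebraicClosure k, x ≠ 0 → aeval x F = 0 →
    ∃ i, aeval x (pderiv i F) ≠ 0

/-- The residue field `k(xᵢ / xⱼ : xⱼ ≠ 0)` of the closed point of `ℙⁿ` given by the nonzero
geometric vector `x`. -/
noncomputable def pointField (k : Type*) [Field k] {n : ℕ} (x : Fin (n + 1) → AlgebraicClosure k) :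
    IntermediateField k (AlgebraicClosure k) :=
  IntermediateField.adjoin k {z | ∃ i j, x j ≠ 0 ∧ z = x i / x j}

/-- The set of the degrees `[k(P) : k]` of the closed points `P` of the hypersurface `F = 0`. -/
def closedPointDegrees {k : Type*} [Field k] {n : ℕ} (F : MvPolynomial (Fin (n + 1)) k) : Set ℕ :=
  {d | ∃ x : Fin (n + 1) → AlgebraicClosure k, x ≠ 0 ∧ aeval x F = 0 ∧
    d = Module.finrank k (pointField k x)}

/-- `m` is the index of the hypersurface `F = 0`: the greatest common divisor of the degrees of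
its closed points. -/
def IsIndex {k : Type*} [Field k] {n : ℕ} (F : MvPolynomial (Fin (n + 1)) k) (m : ℕ) : Prop :=
  (∀ d ∈ closedPointDegrees F, m ∣ d) ∧ ∀ m' : ℕ, (∀ d ∈ closedPointDegrees F, m' ∣ d) → m' ∣ m

/-- The hypersurface `F = 0` has a `k`-rational point. -/
def HasRationalPoint {k : Type*} [Field k] {n : ℕ} (F : MvPolynomial (Fin (n + 1)) k) : Prop :=
  ∃ x : Fin (n + 1) → k, x ≠ 0 ∧ eval x F = 0

/-- The cubic form `∑ᵢ aᵢ xᵢ³ + c ∑_(i<n) xᵢ² x_(i+1)` in the variables `x₀, …, xₙ`. -/
noncomputable def form {k : Type*} [Field k] (n : ℕ) (a : Fin (n + 1) → k) (c : k) :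
    MvPolynomial (Fin (n + 1)) k :=
  ∑ i, C (a i) * X i ^ 3 + C c * ∑ i : Fin n, X i.castSucc ^ 2 * X i.succ

end Pool.Agent.Helper346.Cd
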