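import Pool.Agent.Helper346.Cd.Defs

set_option autoImplicit false

open MvPolynomial

namespace Pool.Agent.Helper346.Cd

/-- The elements `b₁, …, b_m` generate the field `k` as a vector space over its subfield `k³` of
cubes (in characteristic three). -/
def SpansCubes {k : Type*} [Field k] {m : ℕ} (b : Fin m → k) : Prop :=
  ∀ x : k, ∃ c : Fin m → k, x = ∑ j, b j * c j ^ 3

/-- every binary quadratic form over `E` has a nontrivial zero -/
def BinaryIsotropic (E : Type*) [Field E] : Prop :=
  ∀ α β γ : E, ∃ s t : E, (s ≠ 0 ∨ t ≠ 0) ∧ α * s ^ 2 + β * (s * t) + γ * t ^ 2 = 0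

/-- the trilinear form with coefficients `t` -/
def tri {E : Type*} [Field E] {N : ℕ} (t : Fin N → Fin N → Fin N → E) (x y z : Fin N → E) : E :=
  ∑ i, ∑ j, ∑ l, t i j l * (x i * y j * z l)

end Pool.Agent.Helper346.Cd
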