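import Pool.Agent.Helper346.Cd.CI
import Pool.Agent.Helper346.Cd.CJ
import Pool.Agent.Helper346.Cd.CK
import Pool.Agent.Helper346.Cd.CL
import Pool.Agent.Helper346.Cd.CM
import Pool.Agent.Helper346.Cd.CN
import Pool.Agent.Helper346.Cd.CO
import Pool.Agent.Helper346.Cd.CP
import Pool.Agent.Helper346.Cd.CQ
import Pool.Agent.Helper346.Cd.CR

set_option autoImplicit false

open MvPolynomial

namespace Pool.Agent.Helper346.Cd

theorem eval_form {k : Type*} [Field k] (n : ℕ) (a : Fin (n + 1) → k) (c : k)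
    (x : Fin (n + 1) → k) : eval x (form n a c)
      = ∑ i, a i * x i ^ 3 + c * ∑ i : Fin n, x i.castSucc ^ 2 * x i.succ := by
  simp [form]

theorem cdLeOne_of {k : Type} [Field k] [CharP k 3]
    (hk : ∀ f : Polynomial k, Irreducible f → f.Separable → ¬ 3 ∣ f.natDegree → f.natDegree = 1) :
    CdLeOne Gal(SeparableClosure k/k) := by
  have hpro : IsProThree Gal(SeparableClosure k/k) :=
    isProThree_gal (fun M _ h => finrank_eq_one_of_prime_to hk M h)
  intro M _ _ hM ht q hq
  exact vanish_torsion_of_finite q (fun M' _ _ _ hM' => vanish_finite hpro M' hM' q hq) M hM ht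

theorem pack {k : Type} [Field k] [CharP k 3]
    (hk : ∀ f : Polynomial k, Irreducible f → f.Separable → ¬ 3 ∣ f.natDegree → f.natDegree = 1)
    (n : ℕ) (hn : 1 ≤ n) (a : Fin (n + 1) → k) (c : k) (ha : a (Fin.last n) ≠ 0) (hc : c ≠ 0)
    (hrat : ¬ HasRationalPoint (form n a c)) :
    ∃ F : MvPolynomial (Fin (n + 1)) k, F.IsHomogeneous 3 ∧
      IsSmoothHypersurface F ∧ ¬ HasRationalPoint F ∧ IsIndex F 3 :=
  ⟨form n a c, form_homogeneous n a c, form_smooth n a c ha hc, hrat,
    index_three n hn (fun M _ h => finrank_eq_one_of_prime_to hk M h) _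
      (form_homogeneous n a c) hrat⟩

theorem no_rational {κ K Ω : Type} [Field κ] [CharP κ 3] [Field K] [Field Ω]
    [Algebra (Polynomial κ) K] [IsFractionRing (Polynomial κ) K] [Algebra K Ω]
    [Algebra.IsSeparable K Ω] (E : IntermediateField K Ω)
    (hE : ∀ T : IntermediateField K Ω, T ≤ E → FiniteDimensional K T → ¬ 3 ∣ Module.finrank K T)
    (n : ℕ) (a : Fin (n + 1) → κ) (ha : ∀ y : Fin (n + 1) → κ, ∑ i, a i * y i ^ 3 = 0 → y = 0) :
    ¬ HasRationalPoint (form n
      (fun i => algebraMap K E (algebraMap (Polynomial κ) K (Polynomial.C (a i))))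
      (algebraMap K E (algebraMap (Polynomial κ) K Polynomial.X))) := by
  rintro ⟨x, hx, hx0⟩
  rw [eval_form] at hx0
  let T : IntermediateField K Ω :=
    IntermediateField.adjoin K (Set.range fun i => ((x i : E) : Ω))
  have hTE : T ≤ E := by
    refine IntermediateField.adjoin_le_iff.2 ?_
    rintro _ ⟨i, rfl⟩
    exact (x i).2
  have : FiniteDimensional K T := by
    have : Finite (Set.range fun i => ((x i : E) : Ω)) := Set.finite_range _
    refine IntermediateField.finiteDimensional_adjoin ?_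
    intro y _
    exact Algebra.IsIntegral.isIntegral y
  have h3 := hE T hTE inferInstance
  let ι : κ →+* T := (algebraMap K T).comp ((algebraMap (Polynomial κ) K).comp Polynomial.C)
  let c : T := algebraMap K T (algebraMap (Polynomial κ) K Polynomial.X)
  obtain ⟨O, l, _, _, r, _, hr, hι, hc⟩ := exists_good_place (κ := κ) (E := T) K h3 ι c
    (fun a => rfl) rfl
  let y : Fin (n + 1) → T := fun i =>
    ⟨((x i : E) : Ω), IntermediateField.subset_adjoin _ _ ⟨i, rfl⟩⟩
  have hy : y ≠ 0 := by
    intro h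
    apply hx
    funext i
    have := congrArg (fun t : T => (t : Ω)) (congrFun h i)
    exact Subtype.ext this
  refine anisotropic_of_place n a ha ι c O r hr hι hc y hy ?_
  apply Subtype.ext
  have := congrArg (fun t : E => (t : Ω)) hx0
  simpa [y, ι, c] using this

theorem main : ∃ (k : Type) (_ : Field k), CharP k 3 ∧ CdLeOne Gal(SeparableClosure k/k) ∧
    ∀ n : ℕ, 1 ≤ n → ∃ F : MvPolynomial (Fin (n + 1)) k, F.IsHomogeneous 3 ∧
      IsSmoothHypersurface F ∧ ¬ HasRationalPoint F ∧ IsIndex F 3 := by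
  let κ := FractionRing (MvPolynomial ℕ (ZMod 3))
  let K0 := FractionRing (Polynomial κ)
  have : CharP κ 3 :=
    charP_of_injective_algebraMap (IsFractionRing.injective (MvPolynomial ℕ (ZMod 3)) κ) 3
  have : CharP K0 3 :=
    charP_of_injective_algebraMap (IsFractionRing.injective (Polynomial κ) K0) 3
  obtain ⟨E, hE1, hE2⟩ := exists_maximal_prime_to 3 Nat.prime_three K0 (SeparableClosure K0)
  have : CharP E 3 := charP_of_injective_algebraMap (algebraMap K0 E).injective 3
  refine ⟨E, inferInstance, inferInstance, cdLeOne_of hE2, fun n hn => ?_⟩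
  refine pack hE2 n hn _ _ ?_ ?_ (no_rational E hE1 n
    (fun i => algebraMap (MvPolynomial ℕ (ZMod 3)) κ (X (i : ℕ))) (indep_cubes n))
  · have h1 : algebraMap (MvPolynomial ℕ (ZMod 3)) κ (X ((Fin.last n : Fin (n + 1)) : ℕ)) ≠ 0 := by
      rw [ne_eq, map_eq_zero_iff _ (IsFractionRing.injective (MvPolynomial ℕ (ZMod 3)) κ)]
      exact MvPolynomial.X_ne_zero _
    rw [ne_eq, map_eq_zero_iff _ (algebraMap K0 E).injective,
      map_eq_zero_iff _ (IsFractionRing.injective (Polynomial κ) K0), Polynomial.C_eq_zero]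
    exact h1
  · rw [ne_eq, map_eq_zero_iff _ (algebraMap K0 E).injective,
      map_eq_zero_iff _ (IsFractionRing.injective (Polynomial κ) K0)]
    exact Polynomial.X_ne_zero

end Pool.Agent.Helper346.Cd
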