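import Pool.Agent.Helper346.Cd.DA
import Pool.Agent.Helper346.Cd.DC
import Pool.Agent.Helper346.Cd.DD
import Pool.Agent.Helper346.Cd.DF

set_option autoImplicit false

open MvPolynomial

namespace Pool.Agent.Helper346.Cd

theorem exists_zero_of_diagonal {E : Type*} [Field E] [CharP E 3] (hE : BinaryIsotropic E)
    {m : ℕ} (b : Fin m → E) (hb : SpansCubes b) {N : ℕ} (hN : 3 * 2 ^ m ≤ N + 2)
    (t : Fin N → Fin N → Fin N → E) : ∃ x : Fin N → E, x ≠ 0 ∧ tri t x x x = 0 := by
  obtain ⟨v, hv, -, hs⟩ := exists_diagonal hE t m ⊤ (by simpa using hN)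
  choose c hc using fun i => hb (tri t (v i) (v i) (v i))
  obtain ⟨s, hs0, hs1⟩ : ∃ s : Fin (m + 1) → E, s ≠ 0 ∧ ∀ j, ∑ i, s i * c i j = 0 := by
    let A : (Fin (m + 1) → E) →ₗ[E] (Fin m → E) :=
      { toFun := fun s j => ∑ i, s i * c i j
        map_add' := fun s s' => by
          funext j
          simp [add_mul, Finset.sum_add_distrib]
        map_smul' := fun a s => by
          funext j
          simp [Finset.mul_sum, mul_assoc] }
    have hA : LinearMap.ker A ≠ ⊥ := LinearMap.ker_ne_bot_of_finrank_lt (by simp)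
    obtain ⟨s, hs, hs0⟩ := (Submodule.ne_bot_iff _).1 hA
    exact ⟨s, hs0, fun j => congrFun (LinearMap.mem_ker.1 hs) j⟩
  refine ⟨∑ i, s i • v i, ?_, ?_⟩
  · intro h
    apply hs0
    funext i
    exact (Fintype.linearIndependent_iff.1 hv) s h i
  · have : ExpChar E 3 := ExpChar.prime Nat.prime_three
    rw [hs]
    have h1 : ∀ i, s i ^ 3 * tri t (v i) (v i) (v i) = ∑ j, b j * (s i * c i j) ^ 3 := by
      intro i
      rw [hc i, Finset.mul_sum]
      exact Finset.sum_congr rfl fun j _ => by ring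
    simp_rw [h1]
    rw [Finset.sum_comm]
    refine Finset.sum_eq_zero fun j _ => ?_
    rw [← Finset.mul_sum, ← sum_pow_char 3, hs1 j]
    simp

theorem hasRationalPoint_of_spansCubes {k : Type} [Field k] [CharP k 3] {m : ℕ} (b : Fin m → k)
    (hb : SpansCubes b) (n : ℕ) (hn : 3 * 2 ^ m ≤ n + 3) (F : MvPolynomial (Fin (n + 1)) k)
    (hF : F.IsHomogeneous 3) : HasRationalPoint F := by
  obtain ⟨t, ht⟩ := exists_tri F hF
  by_contra hcon
  have h1 : ∀ x : Fin (n + 1) → k, x ≠ 0 → tri t x x x ≠ 0 := by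
    intro x hx h0
    exact hcon ⟨x, hx, by rw [ht, h0]⟩
  obtain ⟨E, _, _, hsep, hbin, han⟩ := exists_quadratically_closed t h1
  have : CharP E 3 := charP_of_injective_algebraMap (algebraMap k E).injective 3
  obtain ⟨x, hx, hx0⟩ := exists_zero_of_diagonal hbin _ (spansCubes_map b hb) (N := n + 1)
    (by omega) (fun i j l => algebraMap k E (t i j l))
  exact han x hx hx0

end Pool.Agent.Helper346.Cd
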